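import Mathlib

/-! Structure of the nontrivial solutions of `x^x y^y = z^z`. -/

set_option autoImplicit false

namespace XYZ4

/-- The primitive data of a nontrivial solution `x = a g`, `y = b g`, `z = c g`. -/
structure Prim (a b c k g : ℕ) : Prop where
  ha : 2 ≤ a
  hb : 2 ≤ b
  hac : a < c
  hbc : b < c
  hk : 1 ≤ k
  hsum : a + b = c + k
  hg : 1 ≤ g
  hcop : Nat.Coprime a b
  heq : g ^ k * a ^ a * b ^ b = c ^ c

theorem Prim.symm {a b c k g : ℕ} (h : Prim a b c k g) : Prim b a c k g :=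
  ⟨h.hb, h.ha, h.hbc, h.hac, h.hk, by have := h.hsum; omega, h.hg, h.hcop.symm, by
    rw [← h.heq]; ring⟩

theorem lt_of_sol {x y z : ℕ} (hx : 2 ≤ x) (hy : 2 ≤ y) (h : x ^ x * y ^ y = z ^ z) : x < z := by
  by_contra hcon
  have hzx : z ≤ x := not_lt.1 hcon
  have h1 : z ^ z ≤ x ^ x :=
    (Nat.pow_le_pow_left hzx z).trans (Nat.pow_le_pow_right (by omega) hzx)
  have h2 : 2 ^ 1 ≤ y ^ y :=
    (Nat.pow_le_pow_left hy 1).trans (Nat.pow_le_pow_right (by omega) (by omega))
  have h3 : 0 < x ^ x := pow_pos (by omega) _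
  have h4 : x ^ x * 2 ≤ x ^ x * y ^ y := Nat.mul_le_mul_left _ (by simpa using h2)
  omega

theorem exists_prim {x y z : ℕ} (hx : 2 ≤ x) (hy : 2 ≤ y) (h : x ^ x * y ^ y = z ^ z) :
    ∃ a b c k g : ℕ, Prim a b c k g ∧ x = a * g ∧ y = b * g ∧ z = c * g := by
  have hxz := lt_of_sol hx hy h
  have hyz : y < z := lt_of_sol hy hx (by rw [← h]; ring)
  set g := Nat.gcd (Nat.gcd x y) z with hgdef
  have hgpos : 0 < g := Nat.gcd_pos_of_pos_right _ (by omega)
  have hgx : g ∣ x := (Nat.gcd_dvd_left _ _).trans (Nat.gcd_dvd_left _ _)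
  have hgy : g ∣ y := (Nat.gcd_dvd_left _ _).trans (Nat.gcd_dvd_right _ _)
  have hgz : g ∣ z := Nat.gcd_dvd_right _ _
  obtain ⟨a, hxa⟩ := hgx
  obtain ⟨b, hyb⟩ := hgy
  obtain ⟨c, hzc⟩ := hgz
  rw [mul_comm] at hxa hyb hzc
  have ha0 : 0 < a := by
    rcases Nat.eq_zero_or_pos a with h0 | h0
    · rw [h0, zero_mul] at hxa; omega
    · exact h0
  have hb0 : 0 < b := by
    rcases Nat.eq_zero_or_pos b with h0 | h0
    · rw [h0, zero_mul] at hyb; omega
    · exact h0
  have hac : a < c := by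
    rw [hxa, hzc] at hxz
    exact lt_of_mul_lt_mul_right hxz (Nat.zero_le _)
  have hbc : b < c := by
    rw [hyb, hzc] at hyz
    exact lt_of_mul_lt_mul_right hyz (Nat.zero_le _)
  have hgcd1 : Nat.gcd (Nat.gcd a b) c = 1 := by
    have h1 : g = Nat.gcd (Nat.gcd a b) c * g := by
      conv_lhs => rw [hgdef, hxa, hyb, hzc]
      rw [Nat.gcd_mul_right, Nat.gcd_mul_right]
    have h2 : 1 * g = Nat.gcd (Nat.gcd a b) c * g := by rw [one_mul]; exact h1
    exact (Nat.eq_of_mul_eq_mul_right hgpos h2).symm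
  have heq1 : (a * g) ^ a * (b * g) ^ b = (c * g) ^ c := by
    have h1 : ((a * g) ^ a * (b * g) ^ b) ^ g = ((c * g) ^ c) ^ g := by
      rw [mul_pow, ← pow_mul, ← pow_mul, ← pow_mul, ← hxa, ← hyb, ← hzc]
      exact h
    exact Nat.pow_left_injective (Nat.pos_iff_ne_zero.1 hgpos) h1
  have hlt : c < a + b := by
    by_contra hcon
    have hle : a + b ≤ c := not_lt.1 hcon
    have h1 : (a * g) ^ a < (c * g) ^ a :=
      Nat.pow_lt_pow_left (Nat.mul_lt_mul_of_pos_right hac hgpos) (by omega)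
    have h2 : (b * g) ^ b ≤ (c * g) ^ b :=
      Nat.pow_le_pow_left (Nat.mul_le_mul_right _ hbc.le) _
    have h3 : (a * g) ^ a * (b * g) ^ b < (c * g) ^ a * (c * g) ^ b :=
      Nat.mul_lt_mul_of_lt_of_le h1 h2 (pow_pos (Nat.mul_pos (by omega) hgpos) _)
    rw [← pow_add] at h3
    have h4 : (c * g) ^ (a + b) ≤ (c * g) ^ c :=
      Nat.pow_le_pow_right (Nat.mul_pos (by omega) hgpos) hle
    rw [heq1] at h3
    omega
  obtain ⟨k, hk⟩ : ∃ k, a + b = c + k := ⟨a + b - c, by omega⟩
  have heq2 : g ^ k * a ^ a * b ^ b = c ^ c := by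
    have h1 : g ^ c * (g ^ k * a ^ a * b ^ b) = g ^ c * c ^ c := by
      have h2 : g ^ c * (g ^ k * a ^ a * b ^ b) = (a * g) ^ a * (b * g) ^ b := by
        have h3 : g ^ c * g ^ k = g ^ a * g ^ b := by rw [← pow_add, ← pow_add, hk]
        rw [mul_pow, mul_pow]
        calc g ^ c * (g ^ k * a ^ a * b ^ b) = (g ^ c * g ^ k) * (a ^ a * b ^ b) := by ring
          _ = (g ^ a * g ^ b) * (a ^ a * b ^ b) := by rw [h3]
          _ = _ := by ring
      rw [h2, heq1, mul_pow]; ring
    exact Nat.eq_of_mul_eq_mul_left (pow_pos hgpos _) h1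
  have ha2 : 2 ≤ a := by omega
  have hb2 : 2 ≤ b := by omega
  refine ⟨a, b, c, k, g, ⟨ha2, hb2, hac, hbc, by omega, hk, hgpos, ?_, heq2⟩, hxa, hyb, hzc⟩
  refine Nat.Coprime.symm (Nat.coprime_of_dvd fun p hp hpb hpa => ?_)
  have h1 : p ∣ c ^ c := by
    rw [← heq2]
    exact Dvd.dvd.mul_right (Dvd.dvd.mul_left (dvd_pow hpa (by omega)) _) _
  have h2 : p ∣ c := hp.dvd_of_dvd_pow h1
  have h3 : p ∣ Nat.gcd (Nat.gcd a b) c := Nat.dvd_gcd (Nat.dvd_gcd hpa hpb) h2
  rw [hgcd1] at h3
  exact hp.one_lt.ne' (Nat.dvd_one.1 h3)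

theorem fac_le_log {n m p : ℕ} (hp : p.Prime) (hn : n ≠ 0) (hnm : n ≤ m) :
    n.factorization p ≤ Nat.log 2 m := by
  have h1 : p ^ n.factorization p ≤ n := Nat.le_of_dvd (Nat.pos_of_ne_zero hn) (Nat.ordProj_dvd n p)
  have h2 : 2 ^ n.factorization p ≤ m :=
    (Nat.pow_le_pow_left hp.two_le _).trans (h1.trans hnm)
  exact Nat.le_log_of_pow_le (by norm_num) h2

section
variable {a b c k g : ℕ} (h : Prim a b c k g)
include h

theorem Prim.lt_two_pow : g ^ k < 2 ^ c := by
  have ha := h.ha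
  have hb := h.hb
  have hac := h.hac
  have hbc := h.hbc
  have hk := h.hk
  have hsum := h.hsum
  have hgpos : (0 : ℝ) < g := by exact_mod_cast h.hg
  have haR : (0 : ℝ) < a := by exact_mod_cast (by omega : 0 < a)
  have hbR : (0 : ℝ) < b := by exact_mod_cast (by omega : 0 < b)
  have hcR : (3 : ℝ) ≤ c := by exact_mod_cast (by omega : 3 ≤ c)
  have hkR : (1 : ℝ) ≤ k := by exact_mod_cast hk
  have hsR : (a : ℝ) + b = c + k := by exact_mod_cast hsum
  -- log form
  have h1 : (k : ℝ) * Real.log g + a * Real.log a + b * Real.log b = c * Real.log c := by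
    have h2 : ((g : ℝ) ^ k * (a : ℝ) ^ a * (b : ℝ) ^ b) = (c : ℝ) ^ c := by exact_mod_cast h.heq
    have h3 := congrArg Real.log h2
    rw [Real.log_mul (by positivity) (by positivity), Real.log_mul (by positivity) (by positivity),
      Real.log_pow, Real.log_pow, Real.log_pow, Real.log_pow] at h3
    exact h3
  -- convexity
  have h4 : ((a : ℝ) + b) * Real.log (((a : ℝ) + b) / 2) ≤ a * Real.log a + b * Real.log b := by
    have hconv := Real.convexOn_mul_log.2 (Set.mem_Ici.2 haR.le) (Set.mem_Ici.2 hbR.le)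
      (show (0 : ℝ) ≤ 1 / 2 by norm_num) (show (0 : ℝ) ≤ 1 / 2 by norm_num) (by norm_num)
    simp only [smul_eq_mul] at hconv
    have h5 : (1 / 2 : ℝ) * a + 1 / 2 * b = ((a : ℝ) + b) / 2 := by ring
    rw [h5] at hconv
    linarith
  have h6 : (c : ℝ) * Real.log ((c : ℝ) / 2) < ((a : ℝ) + b) * Real.log (((a : ℝ) + b) / 2) := by
    rw [hsR]
    have h7 : 0 < Real.log ((c : ℝ) / 2) := Real.log_pos (by linarith)
    have h8 : Real.log ((c : ℝ) / 2) < Real.log (((c : ℝ) + k) / 2) :=
      Real.log_lt_log (by linarith) (by linarith)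
    nlinarith
  have h9 : Real.log ((c : ℝ) / 2) = Real.log c - Real.log 2 :=
    Real.log_div (by linarith) (by norm_num)
  have h10 : (k : ℝ) * Real.log g < c * Real.log 2 := by
    rw [h9] at h6
    nlinarith
  have h11 : Real.log ((g : ℝ) ^ k) < Real.log ((2 : ℝ) ^ c) := by
    rw [Real.log_pow, Real.log_pow]; exact h10
  have h12 : (g : ℝ) ^ k < (2 : ℝ) ^ c :=
    (Real.log_lt_log_iff (by positivity) (by positivity)).1 h11
  exact_mod_cast h12

theorem Prim.val (p : ℕ) : k * g.factorization p + a * a.factorization p +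
    b * b.factorization p = c * c.factorization p := by
  have ha := h.ha
  have hb := h.hb
  have hg := h.hg
  have h1 := congrArg (fun n => n.factorization p) h.heq
  rw [Nat.factorization_mul (by positivity) (by positivity),
    Nat.factorization_mul (by positivity) (by positivity)] at h1
  simpa [Nat.factorization_pow] using h1

theorem Prim.small {p : ℕ} (hp : p.Prime) : k * g.factorization p < c := by
  have hg := h.hg
  have h1 : p ^ g.factorization p ∣ g := Nat.ordProj_dvd g p
  have h2 : p ^ g.factorization p ≤ g := Nat.le_of_dvd (by omega) h1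
  have h3 : 2 ^ (k * g.factorization p) ≤ g ^ k := by
    calc 2 ^ (k * g.factorization p) ≤ p ^ (k * g.factorization p) :=
          Nat.pow_le_pow_left hp.two_le _
      _ = (p ^ g.factorization p) ^ k := by rw [← pow_mul, mul_comm]
      _ ≤ g ^ k := Nat.pow_le_pow_left h2 k
  exact (Nat.pow_lt_pow_iff_right (by norm_num : 1 < 2)).1 (h3.trans_lt h.lt_two_pow)

theorem Prim.small' {p m : ℕ} (hp : 2 ^ m ≤ p) : m * (k * g.factorization p) < c := by
  have hg := h.hg
  have h1 : p ^ g.factorization p ∣ g := Nat.ordProj_dvd g p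
  have h2 : p ^ g.factorization p ≤ g := Nat.le_of_dvd (by omega) h1
  have h3 : 2 ^ (m * (k * g.factorization p)) ≤ g ^ k := by
    calc 2 ^ (m * (k * g.factorization p)) = (2 ^ m) ^ (k * g.factorization p) := by
          rw [← pow_mul]
      _ ≤ p ^ (k * g.factorization p) := Nat.pow_le_pow_left hp _
      _ = (p ^ g.factorization p) ^ k := by rw [← pow_mul, mul_comm]
      _ ≤ g ^ k := Nat.pow_le_pow_left h2 k
  exact (Nat.pow_lt_pow_iff_right (by norm_num : 1 < 2)).1 (h3.trans_lt h.lt_two_pow)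

theorem Prim.val_le {p : ℕ} (hp : p.Prime) :
    c.factorization p ≤ a.factorization p + b.factorization p := by
  have h1 := h.val p
  have h2 := h.small hp
  have hac := h.hac
  have hbc := h.hbc
  by_contra hcon
  have h3 : a.factorization p + b.factorization p + 1 ≤ c.factorization p := by omega
  have h4 : c * (a.factorization p + b.factorization p + 1) ≤ c * c.factorization p :=
    Nat.mul_le_mul_left _ h3
  have h5 : a * a.factorization p ≤ c * a.factorization p := Nat.mul_le_mul_right _ hac.le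
  have h6 : b * b.factorization p ≤ c * b.factorization p := Nat.mul_le_mul_right _ hbc.le
  have h7 : c * (a.factorization p + b.factorization p + 1) =
    c * a.factorization p + c * b.factorization p + c := by ring
  omega

theorem Prim.dvd_mul : c ∣ a * b := by
  have ha := h.ha
  have hb := h.hb
  have hac := h.hac
  rw [← Nat.factorization_prime_le_iff_dvd (by omega) (by positivity)]
  intro p hp
  rw [Nat.factorization_mul (by omega) (by omega)]
  exact h.val_le hp

theorem Prim.eq_gcd_mul : c = Nat.gcd a c * Nat.gcd b c := by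
  have h1 : Nat.gcd c (a * b) = Nat.gcd c a * Nat.gcd c b := Nat.Coprime.gcd_mul c h.hcop
  rw [Nat.gcd_comm a c, Nat.gcd_comm b c, ← h1]
  exact (Nat.gcd_eq_left h.dvd_mul).symm

theorem Prim.cop_kc : Nat.Coprime k c := by
  refine Nat.coprime_of_dvd fun p hp hpk hpc => ?_
  have h1 : p ∣ a * b := hpc.trans h.dvd_mul
  have hs := h.hsum
  have h2 : p ∣ a + b := by rw [hs]; exact dvd_add hpc hpk
  rcases (Nat.Prime.dvd_mul hp).1 h1 with h3 | h3
  · have h4 : p ∣ b := (Nat.dvd_add_right h3).1 h2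
    exact hp.one_lt.ne' (Nat.dvd_one.1 (h.hcop ▸ Nat.dvd_gcd h3 h4))
  · have h4 : p ∣ a := (Nat.dvd_add_left h3).1 h2
    exact hp.one_lt.ne' (Nat.dvd_one.1 (h.hcop ▸ Nat.dvd_gcd h4 h3))

theorem Prim.not_dvd_b {p : ℕ} (hp : p.Prime) (hpa : p ∣ a) : ¬ p ∣ b := fun hpb =>
  hp.one_lt.ne' (Nat.dvd_one.1 (h.hcop ▸ Nat.dvd_gcd hpa hpb))

theorem Prim.not_dvd_a {p : ℕ} (hp : p.Prime) (hpb : p ∣ b) : ¬ p ∣ a := fun hpa =>
  hp.one_lt.ne' (Nat.dvd_one.1 (h.hcop ▸ Nat.dvd_gcd hpa hpb))

/-- The key inequality: `c` divides, hence is at most, `α v_q(g) + β v_p(g) + α β`. -/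
theorem Prim.key {p q : ℕ} (hp : p.Prime) (hq : q.Prime) (hpa : p ∣ a) (hqb : q ∣ b) :
    c ≤ a.factorization p * g.factorization q + b.factorization q * g.factorization p +
      a.factorization p * b.factorization q := by
  have h1 := h.val p
  have h2 := h.val q
  rw [Nat.factorization_eq_zero_of_not_dvd (h.not_dvd_b hp hpa), mul_zero, add_zero] at h1
  rw [Nat.factorization_eq_zero_of_not_dvd (h.not_dvd_a hq hqb), mul_zero, add_zero] at h2
  have ha := h.ha
  have hb := h.hb
  have hα : 0 < a.factorization p := hp.factorization_pos_of_dvd (by omega) hpa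
  have hβ : 0 < b.factorization q := hq.factorization_pos_of_dvd (by omega) hqb
  set α := a.factorization p
  set β := b.factorization q
  set γ := c.factorization p
  set δ := c.factorization q
  set vp := g.factorization p
  set vq := g.factorization q
  have hsum := h.hsum
  have h3 : c * (α * δ + β * γ) = k * (α * vq + β * vp + α * β) + c * (α * β) := by
    calc c * (α * δ + β * γ) = α * (c * δ) + β * (c * γ) := by ring
      _ = α * (k * vq + b * β) + β * (k * vp + a * α) := by rw [h1, h2]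
      _ = k * (α * vq + β * vp) + (a + b) * (α * β) := by ring
      _ = k * (α * vq + β * vp) + (c + k) * (α * β) := by rw [hsum]
      _ = _ := by ring
  have h4 : c ∣ k * (α * vq + β * vp + α * β) := by
    have h5 : c ∣ k * (α * vq + β * vp + α * β) + c * (α * β) := ⟨_, h3.symm⟩
    exact (Nat.dvd_add_left (Dvd.intro _ rfl)).1 h5
  have h6 : c ∣ α * vq + β * vp + α * β := (h.cop_kc.symm).dvd_of_dvd_mul_left h4
  exact Nat.le_of_dvd (by positivity) h6

theorem Prim.c_le : c ≤ 3 * Nat.log 2 (c * g) ^ 2 := by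
  have ha := h.ha
  have hb := h.hb
  have hac := h.hac
  have hbc := h.hbc
  have hg := h.hg
  obtain ⟨p, hp, hpa⟩ := Nat.exists_prime_and_dvd (show a ≠ 1 by omega)
  obtain ⟨q, hq, hqb⟩ := Nat.exists_prime_and_dvd (show b ≠ 1 by omega)
  have h1 := h.key hp hq hpa hqb
  have hcg : c ≤ c * g := Nat.le_mul_of_pos_right c (by omega)
  have hgc : g ≤ c * g := Nat.le_mul_of_pos_left g (by omega)
  have h2 : a.factorization p ≤ Nat.log 2 (c * g) := fac_le_log hp (by omega) (by omega)
  have h3 : b.factorization q ≤ Nat.log 2 (c * g) := fac_le_log hq (by omega) (by omega)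
  have h4 : g.factorization p ≤ Nat.log 2 (c * g) := fac_le_log hp (by omega) (by omega)
  have h5 : g.factorization q ≤ Nat.log 2 (c * g) := fac_le_log hq (by omega) (by omega)
  set L := Nat.log 2 (c * g)
  have h6 := Nat.mul_le_mul h2 h5
  have h7 := Nat.mul_le_mul h3 h4
  have h8 := Nat.mul_le_mul h2 h3
  have h9 : 3 * L ^ 2 = L * L + L * L + L * L := by ring
  omega

theorem Prim.k_lt (hc : 2 * Nat.log 2 c ^ 2 ≤ c) : k < 4 * Nat.log 2 c := by
  have ha := h.ha
  have hb := h.hb
  have hac := h.hac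
  have hbc := h.hbc
  obtain ⟨p, hp, hpa⟩ := Nat.exists_prime_and_dvd (show a ≠ 1 by omega)
  obtain ⟨q, hq, hqb⟩ := Nat.exists_prime_and_dvd (show b ≠ 1 by omega)
  have h1 := h.key hp hq hpa hqb
  have h2 : a.factorization p ≤ Nat.log 2 c := fac_le_log hp (by omega) (by omega)
  have h3 : b.factorization q ≤ Nat.log 2 c := fac_le_log hq (by omega) (by omega)
  have h4 := h.small hp
  have h5 := h.small hq
  have hα : 0 < a.factorization p := hp.factorization_pos_of_dvd (by omega) hpa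
  set L := Nat.log 2 c
  set α := a.factorization p
  set β := b.factorization q
  set vp := g.factorization p
  set vq := g.factorization q
  have h6 : k * c ≤ k * (α * vq + β * vp + α * β) := Nat.mul_le_mul_left _ h1
  have h7 : k * (α * vq + β * vp + α * β) = α * (k * vq) + β * (k * vp) + k * (α * β) := by ring
  have h8 : α * (k * vq) < α * c := Nat.mul_lt_mul_of_pos_left h5 hα
  have h9 : β * (k * vp) ≤ β * c := Nat.mul_le_mul_left _ h4.le
  have h10 : α * c ≤ L * c := Nat.mul_le_mul_right _ h2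
  have h11 : β * c ≤ L * c := Nat.mul_le_mul_right _ h3
  have h12 : k * (α * β) ≤ k * (L * L) := Nat.mul_le_mul_left _ (Nat.mul_le_mul h2 h3)
  have h13 : k * (2 * L ^ 2) ≤ k * c := Nat.mul_le_mul_left _ hc
  have h14 : k * (2 * L ^ 2) = 2 * (k * (L * L)) := by ring
  have h15 : k * c < 4 * (L * c) := by omega
  have h16 : k * c < (4 * L) * c := by rw [mul_assoc]; exact h15
  exact lt_of_mul_lt_mul_right h16 (Nat.zero_le _)

end

/-- All primes `p ≥ 2^(4A)` dividing `n` have exponent more than `A` in `n`. -/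
def Gd (A n : ℕ) : Prop := ∀ p : ℕ, p.Prime → p ∣ n → 2 ^ (4 * A) ≤ p → A < n.factorization p

theorem Prim.dich {a b c k g : ℕ} (h : Prim a b c k g) {A : ℕ} (hc : 2 * A ^ 2 ≤ c) :
    Gd A a ∨ Gd A b := by
  by_contra hcon
  rw [not_or] at hcon
  obtain ⟨h1, h2⟩ := hcon
  unfold Gd at h1 h2
  push Not at h1 h2
  obtain ⟨p, hp, hpa, hpA, hα⟩ := h1
  obtain ⟨q, hq, hqb, hqA, hβ⟩ := h2
  have ha := h.ha
  have hac := h.hac
  have hk := h.hk
  have h3 := h.key hp hq hpa hqb
  have h4 := h.small' hpA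
  have h5 := h.small' hqA
  set α := a.factorization p
  set β := b.factorization q
  set vp := g.factorization p
  set vq := g.factorization q
  have h6 : k * c ≤ k * (α * vq + β * vp + α * β) := Nat.mul_le_mul_left _ h3
  have h7 : k * (α * vq + β * vp + α * β) = α * (k * vq) + β * (k * vp) + k * (α * β) := by ring
  have h8 : α * (k * vq) ≤ A * (k * vq) := Nat.mul_le_mul_right _ hα
  have h9 : β * (k * vp) ≤ A * (k * vp) := Nat.mul_le_mul_right _ hβ
  have h10 : k * (α * β) ≤ k * (A * A) := Nat.mul_le_mul_left _ (Nat.mul_le_mul hα hβ)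
  have h11 : k * (2 * A ^ 2) ≤ k * c := Nat.mul_le_mul_left _ hc
  have h12 : k * (2 * A ^ 2) = 2 * (k * (A * A)) := by ring
  have h13 : 4 * A * (k * vp) = 4 * (A * (k * vp)) := by ring
  have h14 : 4 * A * (k * vq) = 4 * (A * (k * vq)) := by ring
  have h15 : 1 * c ≤ k * c := Nat.mul_le_mul_right _ hk
  omega

end XYZ4
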