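import Mathlib
import Pool.Agent.W_4d3d39_h4.A

/-! Counting the integers all of whose large primes have large exponent. -/

set_option autoImplicit false

namespace XYZ4

open Classical in
/-- The weight `n^(-ε)` on the integers with `Gd A n`. -/
noncomputable def fG (A : ℕ) (ε : ℝ) (n : ℕ) : ℝ :=
  if n ≠ 0 ∧ Gd A n then (n : ℝ) ^ (-ε) else 0

theorem Gd_one (A : ℕ) : Gd A 1 := fun p hp hp1 _ => absurd (Nat.dvd_one.1 hp1) hp.one_lt.ne'

theorem fG_one (A : ℕ) (ε : ℝ) : fG A ε 1 = 1 := by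
  rw [fG, if_pos ⟨one_ne_zero, Gd_one A⟩]; simp

theorem fG_nonneg (A : ℕ) (ε : ℝ) (n : ℕ) : 0 ≤ fG A ε n := by
  rw [fG]; split_ifs
  · positivity
  · exact le_rfl

theorem Gd_mul {A m n : ℕ} (hm : m ≠ 0) (hn : n ≠ 0) (h : m.Coprime n) :
    Gd A (m * n) ↔ Gd A m ∧ Gd A n := by
  have hmul : ∀ p, (m * n).factorization p = m.factorization p + n.factorization p := by
    intro p; rw [Nat.factorization_mul hm hn]; rfl
  constructor
  · intro hG
    refine ⟨fun p hp hpm hpA => ?_, fun p hp hpn hpA => ?_⟩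
    · have h1 := hG p hp (hpm.mul_right n) hpA
      have h2 : ¬ p ∣ n := fun hpn => hp.one_lt.ne' (Nat.dvd_one.1 (h ▸ Nat.dvd_gcd hpm hpn))
      rw [hmul, Nat.factorization_eq_zero_of_not_dvd h2, add_zero] at h1
      exact h1
    · have h1 := hG p hp (hpn.mul_left m) hpA
      have h2 : ¬ p ∣ m := fun hpm => hp.one_lt.ne' (Nat.dvd_one.1 (h ▸ Nat.dvd_gcd hpm hpn))
      rw [hmul, Nat.factorization_eq_zero_of_not_dvd h2, zero_add] at h1
      exact h1
  · rintro ⟨h1, h2⟩ p hp hpmn hpA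
    rw [hmul]
    rcases (Nat.Prime.dvd_mul hp).1 hpmn with h3 | h3
    · have := h1 p hp h3 hpA; omega
    · have := h2 p hp h3 hpA; omega

theorem fG_mul (A : ℕ) (ε : ℝ) {m n : ℕ} (h : m.Coprime n) :
    fG A ε (m * n) = fG A ε m * fG A ε n := by
  rcases eq_or_ne m 0 with hm | hm
  · subst hm
    rw [zero_mul]
    have : fG A ε 0 = 0 := by rw [fG, if_neg (by simp)]
    rw [this, zero_mul]
  rcases eq_or_ne n 0 with hn | hn
  · subst hn
    rw [mul_zero]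
    have : fG A ε 0 = 0 := by rw [fG, if_neg (by simp)]
    rw [this, mul_zero]
  have hG := Gd_mul (A := A) hm hn h
  by_cases h1 : Gd A m
  · by_cases h2 : Gd A n
    · rw [fG, fG, fG, if_pos ⟨mul_ne_zero hm hn, hG.2 ⟨h1, h2⟩⟩, if_pos ⟨hm, h1⟩, if_pos ⟨hn, h2⟩]
      push_cast
      exact Real.mul_rpow (by positivity) (by positivity)
    · rw [fG, fG, fG, if_neg (fun hh => h2 (hG.1 hh.2).2), if_neg (c := n ≠ 0 ∧ _) (fun hh => h2 hh.2),
        mul_zero]
  · rw [fG, fG, if_neg (fun hh => h1 (hG.1 hh.2).1), if_neg (fun hh => h1 hh.2), zero_mul]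

theorem pow_rpow_neg {p : ℕ} (ε : ℝ) (j : ℕ) :
    (((p ^ j : ℕ) : ℝ)) ^ (-ε) = ((p : ℝ) ^ (-ε)) ^ j := by
  push_cast
  rw [← Real.rpow_natCast, ← Real.rpow_natCast, ← Real.rpow_mul (by positivity),
    ← Real.rpow_mul (by positivity), mul_comm]

theorem rpow_neg_le {p : ℕ} (hp : 2 ≤ p) {ε : ℝ} (hε : 0 ≤ ε) :
    (p : ℝ) ^ (-ε) ≤ (2 : ℝ) ^ (-ε) :=
  Real.rpow_le_rpow_of_nonpos (by norm_num) (by exact_mod_cast hp) (by linarith)

theorem fG_pow_le (A : ℕ) {ε : ℝ} (hε : 0 < ε) {p : ℕ} (hp : p.Prime) (j : ℕ) :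
    fG A ε (p ^ j) ≤ ((2 : ℝ) ^ (-ε)) ^ j := by
  rw [fG]
  split_ifs with h
  · rw [pow_rpow_neg]
    exact pow_le_pow_left₀ (by positivity) (rpow_neg_le hp.two_le hε.le) j
  · positivity

theorem two_rpow_lt {ε : ℝ} (hε : 0 < ε) : (2 : ℝ) ^ (-ε) < 1 :=
  Real.rpow_lt_one_of_one_lt_of_neg (by norm_num) (by linarith)

theorem fG_summable (A : ℕ) {ε : ℝ} (hε : 0 < ε) {p : ℕ} (hp : p.Prime) :
    Summable (fun j : ℕ => fG A ε (p ^ j)) :=
  Summable.of_nonneg_of_le (fun j => fG_nonneg A ε _) (fun j => fG_pow_le A hε hp j)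
    (summable_geometric_of_lt_one (by positivity) (two_rpow_lt hε))

theorem fG_tsum_le (A : ℕ) {ε : ℝ} (hε : 0 < ε) {p : ℕ} (hp : p.Prime) :
    ∑' j : ℕ, fG A ε (p ^ j) ≤ (1 - (2 : ℝ) ^ (-ε))⁻¹ := by
  rw [← tsum_geometric_of_lt_one (by positivity) (two_rpow_lt hε)]
  exact (fG_summable A hε hp).tsum_le_tsum (fun j => fG_pow_le A hε hp j)
    (summable_geometric_of_lt_one (by positivity) (two_rpow_lt hε))

theorem fG_pow_le' (A : ℕ) {ε : ℝ} (hε : 0 < ε) (hA : 4 ≤ ((A : ℝ) + 1) * ε) {p : ℕ}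
    (hp : p.Prime) (hpA : 2 ^ (4 * A) ≤ p) (j : ℕ) :
    fG A ε (p ^ j) ≤ (if j = 0 then 1 else 0) + ((p : ℝ) ^ 2)⁻¹ * ((2 : ℝ) ^ (-(ε / 2))) ^ j := by
  have hp0 : (0 : ℝ) < p := by exact_mod_cast hp.pos
  have hp1 : (1 : ℝ) ≤ p := by exact_mod_cast hp.one_lt.le
  rcases Nat.eq_zero_or_pos j with hj | hj
  · subst hj
    rw [pow_zero, fG_one, if_pos rfl]
    have : 0 ≤ ((p : ℝ) ^ 2)⁻¹ * ((2 : ℝ) ^ (-(ε / 2))) ^ 0 := by positivity
    linarith
  rw [if_neg (by omega), zero_add]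
  rw [fG]
  split_ifs with h
  · have h1 : A < j := by
      have := h.2 p hp (dvd_pow_self p (by omega)) hpA
      rwa [hp.factorization_pow, Finsupp.single_eq_same] at this
    rw [pow_rpow_neg]
    have h2 : (p : ℝ) ^ (-ε) = (p : ℝ) ^ (-(ε / 2)) * (p : ℝ) ^ (-(ε / 2)) := by
      rw [← Real.rpow_add hp0]; congr 1; ring
    rw [h2, mul_pow]
    refine mul_le_mul ?_ ?_ (by positivity) (by positivity)
    · have h3 : ((p : ℝ) ^ 2)⁻¹ = (p : ℝ) ^ (-(2 : ℝ)) := by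
        rw [Real.rpow_neg hp0.le]; norm_num
      rw [h3, ← Real.rpow_natCast, ← Real.rpow_mul hp0.le]
      apply Real.rpow_le_rpow_of_exponent_le hp1
      have h4 : ((A : ℝ) + 1) ≤ j := by exact_mod_cast h1
      nlinarith
    · exact pow_le_pow_left₀ (by positivity) (rpow_neg_le hp.two_le (by linarith)) j
  · positivity

theorem fG_tsum_le' (A : ℕ) {ε : ℝ} (hε : 0 < ε) (hA : 4 ≤ ((A : ℝ) + 1) * ε) {p : ℕ}
    (hp : p.Prime) (hpA : 2 ^ (4 * A) ≤ p) :
    ∑' j : ℕ, fG A ε (p ^ j) ≤ 1 + (1 - (2 : ℝ) ^ (-(ε / 2)))⁻¹ * ((p : ℝ) ^ 2)⁻¹ := by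
  have h2 : (2 : ℝ) ^ (-(ε / 2)) < 1 := two_rpow_lt (by linarith)
  have hs1 : HasSum (fun j : ℕ => if j = 0 then (1 : ℝ) else 0) 1 := by
    have := hasSum_ite_eq (0 : ℕ) (1 : ℝ)
    simpa using this
  have hs2 : HasSum (fun j : ℕ => ((p : ℝ) ^ 2)⁻¹ * ((2 : ℝ) ^ (-(ε / 2))) ^ j)
      (((p : ℝ) ^ 2)⁻¹ * (1 - (2 : ℝ) ^ (-(ε / 2)))⁻¹) :=
    (hasSum_geometric_of_lt_one (by positivity) h2).mul_left _
  have hs := hs1.add hs2
  have h3 := (fG_summable A hε hp).tsum_le_tsum (fun j => fG_pow_le' A hε hA hp hpA j) hs.summable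
  rw [hs.tsum_eq] at h3
  linarith [mul_comm ((p : ℝ) ^ 2)⁻¹ (1 - (2 : ℝ) ^ (-(ε / 2)))⁻¹]

open Classical in
/-- Rankin bound for the number of `n ≤ N` with `Gd A n`. -/
theorem count_Gd (A : ℕ) {ε : ℝ} (hε : 0 < ε) (hA : 4 ≤ ((A : ℝ) + 1) * ε) :
    ∃ C : ℝ, 0 < C ∧ ∀ N : ℕ, 1 ≤ N →
      ((((Finset.Icc 1 N).filter (Gd A)).card : ℕ) : ℝ) ≤ C * (N : ℝ) ^ ε := by
  set K : ℝ := (1 - (2 : ℝ) ^ (-ε))⁻¹ with hK
  set K' : ℝ := (1 - (2 : ℝ) ^ (-(ε / 2)))⁻¹ with hK'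
  set Y : ℕ := 2 ^ (4 * A) with hY
  have hZs : Summable (fun n : ℕ => ((n : ℝ) ^ 2)⁻¹) := by
    have := Real.summable_nat_pow_inv.2 (show 1 < 2 by norm_num)
    exact this
  set Z : ℝ := ∑' n : ℕ, ((n : ℝ) ^ 2)⁻¹ with hZ
  have h2a : (2 : ℝ) ^ (-ε) < 1 := two_rpow_lt hε
  have h2b : (2 : ℝ) ^ (-(ε / 2)) < 1 := two_rpow_lt (by linarith)
  have h2c : 0 < (2 : ℝ) ^ (-ε) := by positivity
  have h2d : 0 < (2 : ℝ) ^ (-(ε / 2)) := by positivity
  have hK1 : 1 ≤ K := by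
    rw [hK]; exact (one_le_inv₀ (by linarith)).2 (by linarith)
  have hK'0 : 0 ≤ K' := by rw [hK']; exact inv_nonneg.2 (by linarith)
  refine ⟨K ^ Y * Real.exp (K' * Z), by positivity, fun N hN => ?_⟩
  obtain ⟨hsm, hhs⟩ := EulerProduct.summable_and_hasSum_smoothNumbers_prod_primesBelow_tsum
    (f := fG A ε) (fG_one A ε) (fun {m n} h => fG_mul A ε h)
    (fun {p} hp => by
      have := fG_summable A hε hp
      simpa [Real.norm_eq_abs, abs_of_nonneg (fG_nonneg A ε _)] using this) (N + 1)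
  -- the product is bounded
  have hprod : ∏ p ∈ (N + 1).primesBelow, ∑' n : ℕ, fG A ε (p ^ n) ≤
      K ^ Y * Real.exp (K' * Z) := by
    calc ∏ p ∈ (N + 1).primesBelow, ∑' n : ℕ, fG A ε (p ^ n)
        ≤ ∏ p ∈ (N + 1).primesBelow, ((if p < Y then K else 1) *
            Real.exp (K' * ((p : ℝ) ^ 2)⁻¹)) := by
          refine Finset.prod_le_prod (fun p _ => tsum_nonneg fun j => fG_nonneg A ε _)
            fun p hp => ?_
          have hpp : p.Prime := (Nat.mem_primesBelow.1 hp).2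
          have he : 1 ≤ Real.exp (K' * ((p : ℝ) ^ 2)⁻¹) := Real.one_le_exp (by positivity)
          split_ifs with h
          · refine (fG_tsum_le A hε hpp).trans ?_
            calc K = K * 1 := (mul_one _).symm
              _ ≤ _ := mul_le_mul_of_nonneg_left he (by linarith)
          · rw [one_mul]
            refine (fG_tsum_le' A hε hA hpp (not_lt.1 h)).trans ?_
            have := Real.add_one_le_exp (K' * ((p : ℝ) ^ 2)⁻¹)
            linarith
      _ = (∏ p ∈ (N + 1).primesBelow, (if p < Y then K else 1)) *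
            ∏ p ∈ (N + 1).primesBelow, Real.exp (K' * ((p : ℝ) ^ 2)⁻¹) :=
          Finset.prod_mul_distrib
      _ ≤ K ^ Y * Real.exp (K' * Z) := by
          refine mul_le_mul ?_ ?_ (Finset.prod_nonneg fun p _ => by positivity) (by positivity)
          · rw [Finset.prod_ite, Finset.prod_const, Finset.prod_const_one, mul_one]
            refine pow_le_pow_right₀ hK1 ?_
            calc (((N + 1).primesBelow).filter (fun p => p < Y)).card ≤ (Finset.range Y).card := by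
                  refine Finset.card_le_card fun p hp => ?_
                  rw [Finset.mem_range]
                  exact (Finset.mem_filter.1 hp).2
              _ = Y := Finset.card_range Y
          · rw [← Real.exp_sum, ← Finset.mul_sum]
            refine Real.exp_le_exp.2 (mul_le_mul_of_nonneg_left ?_ hK'0)
            exact hZs.sum_le_tsum _ (fun n _ => by positivity)
  -- compare the sum with the product
  have hsum : ∑ n ∈ (Finset.Icc 1 N).filter (Gd A), fG A ε n ≤ K ^ Y * Real.exp (K' * Z) := by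
    have h1 : ∀ n ∈ (Finset.Icc 1 N).filter (Gd A), n ∈ (N + 1).smoothNumbers := by
      intro n hn
      have hn1 := Finset.mem_Icc.1 (Finset.mem_filter.1 hn).1
      rw [Nat.mem_smoothNumbers']
      intro p _ hpn
      have := Nat.le_of_dvd (by omega) hpn
      omega
    rw [← Finset.sum_subtype_of_mem (fG A ε) h1]
    refine le_trans ?_ hprod
    rw [← hhs.tsum_eq]
    exact hhs.summable.sum_le_tsum _ (fun m _ => fG_nonneg A ε _)
  have hN0 : (0 : ℝ) < N := by exact_mod_cast (by omega : 0 < N)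
  have hcard : ((((Finset.Icc 1 N).filter (Gd A)).card : ℕ) : ℝ) ≤
      (N : ℝ) ^ ε * ∑ n ∈ (Finset.Icc 1 N).filter (Gd A), fG A ε n := by
    rw [Finset.mul_sum, Finset.card_eq_sum_ones]
    push_cast
    refine Finset.sum_le_sum fun n hn => ?_
    have hn1 := Finset.mem_Icc.1 (Finset.mem_filter.1 hn).1
    have hn0 : (0 : ℝ) < n := by exact_mod_cast (by omega : 0 < n)
    have hnN : (n : ℝ) ≤ N := by exact_mod_cast hn1.2
    rw [fG, if_pos ⟨by omega, (Finset.mem_filter.1 hn).2⟩, Real.rpow_neg hn0.le,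
      ← div_eq_mul_inv, one_le_div (by positivity)]
    exact Real.rpow_le_rpow hn0.le hnN hε.le
  calc ((((Finset.Icc 1 N).filter (Gd A)).card : ℕ) : ℝ)
      ≤ (N : ℝ) ^ ε * ∑ n ∈ (Finset.Icc 1 N).filter (Gd A), fG A ε n := hcard
    _ ≤ (N : ℝ) ^ ε * (K ^ Y * Real.exp (K' * Z)) :=
        mul_le_mul_of_nonneg_left hsum (by positivity)
    _ = _ := mul_comm _ _

end XYZ4
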