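import Mathlib
import Pool.Agent.W_fd120a_h34.Div
import Pool.Agent.W_4d3d39_h4.B

/-! Counting the nontrivial solutions of `x^x y^y = z^z`. -/

set_option autoImplicit false

namespace XYZ4

theorem Prim.unique {a b c k g k' g' : ℕ} (h : Prim a b c k g) (h' : Prim a b c k' g') :
    g = g' := by
  have h1 := h.hsum
  have h2 := h'.hsum
  have hk : k = k' := by omega
  subst hk
  have h3 : g ^ k * (a ^ a * b ^ b) = g' ^ k * (a ^ a * b ^ b) := by
    rw [← mul_assoc, ← mul_assoc, h.heq, h'.heq]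
  have ha := h.ha
  have hb := h.hb
  have h4 : g ^ k = g' ^ k := Nat.eq_of_mul_eq_mul_right (by positivity) h3
  exact Nat.pow_left_injective (by have := h.hk; omega) h4

/-- The nontrivial solutions with `z ≤ X`. -/
def Sol (X : ℕ) : Set (ℕ × ℕ × ℕ) :=
  {t | 2 ≤ t.1 ∧ 2 ≤ t.2.1 ∧ t.1 ^ t.1 * t.2.1 ^ t.2.1 = t.2.2 ^ t.2.2 ∧ t.2.2 ≤ X}

theorem Sol_finite (X : ℕ) : (Sol X).Finite := by
  refine Set.Finite.subset (Finset.finite_toSet
    ((Finset.range X) ×ˢ (Finset.range X) ×ˢ (Finset.range (X + 1)))) ?_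
  rintro ⟨x, y, z⟩ ⟨hx, hy, h, hz⟩
  simp only at hx hy h hz
  have h1 := lt_of_sol hx hy h
  have h2 : y < z := lt_of_sol hy hx (by rw [← h]; ring)
  simp only [Finset.coe_product, Finset.coe_range, Set.mem_prod, Set.mem_Iio]
  omega

open Classical in
/-- The primitive triples with `c ≤ N`. -/
noncomputable def TF (N : ℕ) : Finset (ℕ × ℕ × ℕ) :=
  ((Finset.range (N + 1)) ×ˢ (Finset.range (N + 1)) ×ˢ (Finset.range (N + 1))).filter
    (fun t => ∃ k g, Prim t.1 t.2.1 t.2.2 k g)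

open Classical in
/-- Reconstruct the solution from the triple. -/
noncomputable def back (t : ℕ × ℕ × ℕ) : ℕ × ℕ × ℕ :=
  if h : ∃ g k, Prim t.1 t.2.1 t.2.2 k g then
    (t.1 * h.choose, t.2.1 * h.choose, t.2.2 * h.choose) else (0, 0, 0)

theorem Sol_subset (X : ℕ) : Sol X ⊆ back '' (TF (3 * Nat.log 2 X ^ 2) : Set (ℕ × ℕ × ℕ)) := by
  classical
  rintro ⟨x, y, z⟩ ⟨hx, hy, h, hz⟩
  simp only at hx hy h hz
  obtain ⟨a, b, c, k, g, hP, hxa, hyb, hzc⟩ := exists_prim hx hy h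
  have h1 : c ≤ 3 * Nat.log 2 X ^ 2 := by
    refine hP.c_le.trans ?_
    rw [← hzc]
    exact Nat.mul_le_mul_left _ (Nat.pow_le_pow_left (Nat.log_mono_right hz) 2)
  refine ⟨(a, b, c), ?_, ?_⟩
  · rw [Finset.mem_coe, TF, Finset.mem_filter]
    have hac := hP.hac
    have hbc := hP.hbc
    refine ⟨?_, k, g, hP⟩
    simp only [Finset.mem_product, Finset.mem_range]
    omega
  · have hex : ∃ g k, Prim (a, b, c).1 (a, b, c).2.1 (a, b, c).2.2 k g := ⟨g, k, hP⟩
    rw [back, dif_pos hex]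
    have h2 : hex.choose = g := by
      obtain ⟨k', hk'⟩ := hex.choose_spec
      exact hk'.unique hP
    rw [h2, hxa, hyb, hzc]

theorem Sol_ncard_le (X : ℕ) : (Sol X).ncard ≤ (TF (3 * Nat.log 2 X ^ 2)).card := by
  calc (Sol X).ncard ≤ (back '' (TF (3 * Nat.log 2 X ^ 2) : Set (ℕ × ℕ × ℕ))).ncard :=
        Set.ncard_le_ncard (Sol_subset X) ((Finset.finite_toSet _).image _)
    _ ≤ (TF (3 * Nat.log 2 X ^ 2) : Set (ℕ × ℕ × ℕ)).ncard :=
        Set.ncard_image_le (Finset.finite_toSet _)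
    _ = _ := Set.ncard_coe_finset _

open Classical in
/-- The candidates for the triples with `Gd A a`. -/
noncomputable def Cand (A N : ℕ) : Finset (ℕ × ℕ × ℕ) :=
  (((Finset.Icc 1 N).filter (Gd A)) ×ˢ Finset.range (4 * Nat.log 2 N + 1)).biUnion
    (fun s => ((s.1.divisors ×ˢ (s.1 - s.2).divisors).image
      (fun r => (s.1, r.1 * r.2 + s.2 - s.1, r.1 * r.2))))

theorem mem_Cand {A N a b c k g : ℕ} (h : Prim a b c k g) (hcN : c ≤ N)
    (hc : 2 * Nat.log 2 c ^ 2 ≤ c) (hG : Gd A a) : (a, b, c) ∈ Cand A N := by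
  classical
  have ha := h.ha
  have hb := h.hb
  have hac := h.hac
  have hbc := h.hbc
  have hsum := h.hsum
  have hk := h.k_lt hc
  have hl : Nat.log 2 c ≤ Nat.log 2 N := Nat.log_mono_right hcN
  rw [Cand, Finset.mem_biUnion]
  refine ⟨(a, k), ?_, ?_⟩
  · rw [Finset.mem_product, Finset.mem_filter, Finset.mem_Icc, Finset.mem_range]
    exact ⟨⟨⟨by simp only; omega, by simp only; omega⟩, hG⟩, by simp only; omega⟩
  · rw [Finset.mem_image]
    refine ⟨(Nat.gcd a c, Nat.gcd b c), ?_, ?_⟩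
    · rw [Finset.mem_product, Nat.mem_divisors, Nat.mem_divisors]
      refine ⟨⟨Nat.gcd_dvd_left a c, by simp only; omega⟩, ?_, by simp only; omega⟩
      simp only
      have h1 : a - k = c - b := by omega
      rw [h1]
      exact Nat.dvd_sub (Nat.gcd_dvd_right b c) (Nat.gcd_dvd_left b c)
    · simp only [Prod.mk.injEq, true_and]
      rw [← h.eq_gcd_mul]
      exact ⟨by omega, rfl⟩

theorem card_Cand_le (A N M : ℕ) (hM : ∀ n, 0 < n → n ≤ N → n.divisors.card ≤ M) :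
    (Cand A N).card ≤ (letI := Classical.decPred (Gd A); ((Finset.Icc 1 N).filter (Gd A)).card) *
      (4 * Nat.log 2 N + 1) * (M * M) := by
  classical
  rw [Cand]
  refine (Finset.card_biUnion_le_card_mul _ _ (M * M) ?_).trans ?_
  · rintro ⟨a, k⟩ hs
    rw [Finset.mem_product, Finset.mem_filter, Finset.mem_Icc] at hs
    simp only at hs
    refine Finset.card_image_le.trans ?_
    rw [Finset.card_product]
    refine Nat.mul_le_mul (hM _ (by omega) (by omega)) ?_
    rcases Nat.eq_zero_or_pos (a - k) with h0 | h0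
    · simp only [h0, Nat.divisors_zero, Finset.card_empty, Nat.zero_le]
    · exact hM _ h0 (by simp only; omega)
  · rw [Finset.card_product, Finset.card_range]

/-- Main counting lemma for primitive triples. -/
theorem TF_card_le (A c0 : ℕ) (hA : 2 * A ^ 2 ≤ c0)
    (hc0 : ∀ c, c0 ≤ c → 2 * Nat.log 2 c ^ 2 ≤ c) (N : ℕ) :
    (TF N).card ≤ c0 * (c0 * c0) + 2 * (Cand A N).card := by
  classical
  have hsub : TF N ⊆ ((Finset.range c0) ×ˢ (Finset.range c0) ×ˢ (Finset.range c0)) ∪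
      (Cand A N ∪ (Cand A N).image (fun t => (t.2.1, t.1, t.2.2))) := by
    rintro ⟨a, b, c⟩ ht
    rw [TF, Finset.mem_filter] at ht
    obtain ⟨ht1, k, g, hP⟩ := ht
    simp only [Finset.mem_product, Finset.mem_range] at ht1 hP
    have hac := hP.hac
    have hbc := hP.hbc
    rcases lt_or_ge c c0 with hc | hc
    · refine Finset.mem_union_left _ ?_
      simp only [Finset.mem_product, Finset.mem_range]
      omega
    · refine Finset.mem_union_right _ ?_
      rcases hP.dich (hA.trans hc) with hG | hG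
      · exact Finset.mem_union_left _ (mem_Cand hP (by omega) (hc0 c hc) hG)
      · refine Finset.mem_union_right _ (Finset.mem_image.2 ⟨(b, a, c), ?_, rfl⟩)
        exact mem_Cand hP.symm (by omega) (hc0 c hc) hG
  refine (Finset.card_le_card hsub).trans ?_
  refine (Finset.card_union_le _ _).trans ?_
  rw [Finset.card_product, Finset.card_product, Finset.card_range]
  refine Nat.add_le_add_left ?_ _
  refine (Finset.card_union_le _ _).trans ?_
  have := Finset.card_image_le (s := Cand A N) (f := fun t : ℕ × ℕ × ℕ => (t.2.1, t.1, t.2.2))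
  omega

theorem exists_c0 : ∃ c1 : ℕ, ∀ c, c1 ≤ c → 2 * Nat.log 2 c ^ 2 ≤ c := by
  have h1 := (Real.isLittleO_pow_log_id_atTop (n := 2)).def
    (show (0 : ℝ) < (Real.log 2) ^ 2 / 2 by have := Real.log_pos one_lt_two; positivity)
  obtain ⟨x0, hx0⟩ := Filter.eventually_atTop.1 h1
  refine ⟨⌈x0⌉₊ + 1, fun c hc => ?_⟩
  have hcx : x0 ≤ c := (Nat.le_ceil x0).trans (by exact_mod_cast (by omega : ⌈x0⌉₊ ≤ c))
  have h2 := hx0 c hcx
  simp only [id, Real.norm_eq_abs] at h2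
  have hcpos : (0 : ℝ) < c := by exact_mod_cast (by omega : 0 < c)
  rw [abs_of_nonneg (by positivity), abs_of_nonneg hcpos.le] at h2
  have h3 : (Nat.log 2 c : ℝ) ≤ Real.log c / Real.log 2 := by
    have := Real.natLog_le_logb c 2
    rwa [Real.logb] at this
  have hl2 : 0 < Real.log 2 := Real.log_pos one_lt_two
  have h4 : (2 : ℝ) * (Nat.log 2 c : ℝ) ^ 2 ≤ c := by
    have h5 : (Nat.log 2 c : ℝ) ^ 2 ≤ (Real.log c / Real.log 2) ^ 2 :=
      pow_le_pow_left₀ (Nat.cast_nonneg _) h3 2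
    have h6 : (Real.log c / Real.log 2) ^ 2 ≤ c / 2 := by
      rw [div_pow, div_le_iff₀ (by positivity)]
      linarith
    linarith
  exact_mod_cast h4

theorem main_bound (ε : ℝ) (hε : 0 < ε) : ∃ C : ℝ, ∀ X : ℕ, 2 ≤ X →
    ((Sol X).ncard : ℝ) ≤ C * (Real.log X) ^ ε := by
  classical
  set e : ℝ := ε / 8 with he
  have he0 : 0 < e := by positivity
  obtain ⟨A, hA⟩ : ∃ A : ℕ, 4 ≤ ((A : ℝ) + 1) * e := by
    refine ⟨⌈4 / e⌉₊, ?_⟩
    have h1 : 4 / e ≤ (⌈4 / e⌉₊ : ℝ) := Nat.le_ceil _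
    rw [div_le_iff₀ he0] at h1
    nlinarith
  obtain ⟨C1, hC1, hcount⟩ := count_Gd A he0 hA
  obtain ⟨D0, hD0, hdiv⟩ := FD120.divisor_bound e he0
  obtain ⟨c1, hc1⟩ := exists_c0
  set c0 : ℕ := max c1 (2 * A ^ 2) with hc0
  have hl2 : 0 < Real.log 2 := Real.log_pos one_lt_two
  -- the constant
  set E : ℝ := 2 * (C1 * ((4 / (e * Real.log 2) + 1) * (D0 * D0))) with hE
  have hE0 : 0 ≤ E := by positivity
  set F : ℝ := (3 / (Real.log 2) ^ 2) ^ (4 * e) with hF
  have hF0 : 0 ≤ F := by positivity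
  refine ⟨(c0 * (c0 * c0) : ℝ) / (Real.log 2) ^ ε + E * F, fun X hX => ?_⟩
  have hlogX : Real.log 2 ≤ Real.log X :=
    Real.log_le_log (by norm_num) (by exact_mod_cast hX)
  have hlogX0 : 0 < Real.log X := lt_of_lt_of_le hl2 hlogX
  set N : ℕ := 3 * Nat.log 2 X ^ 2 with hN
  have hN1 : 1 ≤ N := by
    have h1 : 1 ≤ Nat.log 2 X := Nat.log_pos (by norm_num) hX
    have h2 : 1 ≤ Nat.log 2 X ^ 2 := Nat.one_le_pow _ _ h1
    omega
  have hNR : (0 : ℝ) < N := by exact_mod_cast hN1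
  have hNle : (N : ℝ) ≤ 3 / (Real.log 2) ^ 2 * (Real.log X) ^ 2 := by
    have h3 : (Nat.log 2 X : ℝ) ≤ Real.log X / Real.log 2 := by
      have := Real.natLog_le_logb X 2
      rwa [Real.logb] at this
    have h5 : (Nat.log 2 X : ℝ) ^ 2 ≤ (Real.log X / Real.log 2) ^ 2 :=
      pow_le_pow_left₀ (Nat.cast_nonneg _) h3 2
    rw [hN]; push_cast
    calc (3 : ℝ) * (Nat.log 2 X : ℝ) ^ 2 ≤ 3 * (Real.log X / Real.log 2) ^ 2 := by linarith
      _ = _ := by rw [div_pow]; ring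
  -- divisor bound as a natural number
  set M : ℕ := ⌊D0 * (N : ℝ) ^ e⌋₊ with hM
  have hMle : (M : ℝ) ≤ D0 * (N : ℝ) ^ e := Nat.floor_le (by positivity)
  have hMd : ∀ n, 0 < n → n ≤ N → n.divisors.card ≤ M := by
    intro n hn hnN
    apply Nat.le_floor
    refine (hdiv n hn).trans ?_
    refine mul_le_mul_of_nonneg_left ?_ hD0.le
    exact Real.rpow_le_rpow (Nat.cast_nonneg _) (by exact_mod_cast hnN) he0.le
  have h1 : ((Sol X).ncard : ℝ) ≤ ((c0 * (c0 * c0) + 2 * (Cand A N).card : ℕ) : ℝ) := by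
    exact_mod_cast (Sol_ncard_le X).trans (TF_card_le A c0 (le_max_right _ _)
      (fun c hc => hc1 c ((le_max_left _ _).trans hc)) N)
  have h2 : ((Cand A N).card : ℝ) ≤ (C1 * (N : ℝ) ^ e) *
      ((4 / (e * Real.log 2) + 1) * (N : ℝ) ^ e) * ((D0 * (N : ℝ) ^ e) * (D0 * (N : ℝ) ^ e)) := by
    have h3 : ((Cand A N).card : ℝ) ≤
        ((((Finset.Icc 1 N).filter (Gd A)).card : ℕ) : ℝ) * ((4 * Nat.log 2 N + 1 : ℕ) : ℝ) *
          ((M : ℝ) * (M : ℝ)) := by
      have := card_Cand_le A N M hMd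
      have h4 : (Cand A N).card ≤ ((Finset.Icc 1 N).filter (Gd A)).card *
          (4 * Nat.log 2 N + 1) * (M * M) := by
        refine this.trans (le_of_eq ?_)
        congr 3
      exact_mod_cast h4
    refine h3.trans ?_
    have h5 : ((4 * Nat.log 2 N + 1 : ℕ) : ℝ) ≤ (4 / (e * Real.log 2) + 1) * (N : ℝ) ^ e := by
      have h6 : (Nat.log 2 N : ℝ) ≤ Real.log N / Real.log 2 := by
        have := Real.natLog_le_logb N 2
        rwa [Real.logb] at this
      have h7 : Real.log N ≤ (N : ℝ) ^ e / e := Real.log_le_rpow_div hNR.le he0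
      have h8 : (1 : ℝ) ≤ (N : ℝ) ^ e := Real.one_le_rpow (by exact_mod_cast hN1) he0.le
      push_cast
      have h9 : Real.log N / Real.log 2 ≤ (N : ℝ) ^ e / e / Real.log 2 :=
        div_le_div_of_nonneg_right h7 hl2.le
      have h10 : (4 / (e * Real.log 2) + 1) * (N : ℝ) ^ e =
          4 * ((N : ℝ) ^ e / e / Real.log 2) + (N : ℝ) ^ e := by
        field_simp
      rw [h10]
      linarith
    have h11 := hcount N hN1
    refine mul_le_mul (mul_le_mul h11 h5 (Nat.cast_nonneg _) (by positivity))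
      (mul_le_mul hMle hMle (Nat.cast_nonneg _) (by positivity)) (by positivity) (by positivity)
  have h3 : (N : ℝ) ^ e * (N : ℝ) ^ e * ((N : ℝ) ^ e * (N : ℝ) ^ e) = (N : ℝ) ^ (4 * e) := by
    rw [← Real.rpow_add hNR, ← Real.rpow_add hNR]
    congr 1; ring
  have h4 : (N : ℝ) ^ (4 * e) ≤ F * (Real.log X) ^ ε := by
    calc (N : ℝ) ^ (4 * e) ≤ (3 / (Real.log 2) ^ 2 * (Real.log X) ^ 2) ^ (4 * e) :=
          Real.rpow_le_rpow hNR.le hNle (by positivity)
      _ = F * ((Real.log X) ^ 2) ^ (4 * e) := by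
          rw [Real.mul_rpow (by positivity) (by positivity)]
      _ = F * (Real.log X) ^ ε := by
          congr 1
          rw [← Real.rpow_natCast, ← Real.rpow_mul hlogX0.le]
          congr 1
          rw [he]; push_cast; ring
  have h5 : ((c0 * (c0 * c0) : ℕ) : ℝ) ≤ (c0 * (c0 * c0) : ℝ) / (Real.log 2) ^ ε *
      (Real.log X) ^ ε := by
    rw [div_mul_eq_mul_div, le_div_iff₀ (by positivity)]
    push_cast
    refine mul_le_mul_of_nonneg_left ?_ (by positivity)
    exact Real.rpow_le_rpow hl2.le hlogX hε.le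
  calc ((Sol X).ncard : ℝ) ≤ ((c0 * (c0 * c0) + 2 * (Cand A N).card : ℕ) : ℝ) := h1
    _ = ((c0 * (c0 * c0) : ℕ) : ℝ) + 2 * ((Cand A N).card : ℝ) := by push_cast; ring
    _ ≤ (c0 * (c0 * c0) : ℝ) / (Real.log 2) ^ ε * (Real.log X) ^ ε +
          E * (N : ℝ) ^ (4 * e) := by
        refine add_le_add h5 ?_
        rw [← h3, hE]
        refine (mul_le_mul_of_nonneg_left h2 (by norm_num)).trans (le_of_eq ?_)
        ring
    _ ≤ (c0 * (c0 * c0) : ℝ) / (Real.log 2) ^ ε * (Real.log X) ^ ε +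
          E * (F * (Real.log X) ^ ε) := by
        have := mul_le_mul_of_nonneg_left h4 hE0
        linarith
    _ = _ := by ring

end XYZ4
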