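import Mathlib
import Pool.Agent.W_4d3d39_h4.A

/-! Core of the radical theorem: a large class of primes with bounded exponents forces `4ab = c^2`. -/

set_option autoImplicit false

namespace XYZ4

open Real

section
variable {a b c k g : ℕ} (h : Prim a b c k g)
include h

theorem Prim.fac_a {p : ℕ} (hp : p.Prime) (hpa : p ∣ a) :
    k * g.factorization p + a * a.factorization p = c * c.factorization p ∧
      1 ≤ c.factorization p ∧ c.factorization p ≤ a.factorization p := by
  have ha := h.ha
  have h1 := h.val p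
  rw [Nat.factorization_eq_zero_of_not_dvd (h.not_dvd_b hp hpa), mul_zero, add_zero] at h1
  have h2 := h.val_le hp
  rw [Nat.factorization_eq_zero_of_not_dvd (h.not_dvd_b hp hpa), add_zero] at h2
  have hα : 0 < a.factorization p := hp.factorization_pos_of_dvd (by omega) hpa
  refine ⟨h1, ?_, h2⟩
  by_contra hcon
  have h3 : c.factorization p = 0 := by omega
  rw [h3, mul_zero] at h1
  have h4 : 0 < a * a.factorization p := by positivity
  omega

theorem Prim.fac_b {q : ℕ} (hq : q.Prime) (hqb : q ∣ b) :
    k * g.factorization q + b * b.factorization q = c * c.factorization q ∧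
      1 ≤ c.factorization q ∧ c.factorization q ≤ b.factorization q :=
  h.symm.fac_a hq hqb

theorem Prim.log_g : (k : ℝ) * log g < c * log 2 := by
  have h1 : ((g ^ k : ℕ) : ℝ) < ((2 ^ c : ℕ) : ℝ) := by exact_mod_cast h.lt_two_pow
  push_cast at h1
  have hg : (0 : ℝ) < g := by exact_mod_cast h.hg
  have h2 := Real.log_lt_log (by positivity) h1
  rwa [Real.log_pow, Real.log_pow] at h2

end

theorem sum_fac_log_le (g : ℕ) (T : Finset ℕ) :
    ∑ q ∈ T, (g.factorization q : ℝ) * log q ≤ log g := by
  classical
  rw [Real.log_nat_eq_sum_factorization, Finsupp.sum]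
  have h1 : ∑ q ∈ T, (g.factorization q : ℝ) * log q =
      ∑ q ∈ T.filter (fun q => q ∈ g.factorization.support), (g.factorization q : ℝ) * log q := by
    rw [Finset.sum_filter]
    refine Finset.sum_congr rfl fun q _ => ?_
    split_ifs with hq
    · rfl
    · rw [Finsupp.notMem_support_iff.1 hq]; simp
  rw [h1]
  refine Finset.sum_le_sum_of_subset_of_nonneg (fun q hq => (Finset.mem_filter.1 hq).2) ?_
  intro q _ _
  exact mul_nonneg (Nat.cast_nonneg _) (Real.log_natCast_nonneg q)

/-- `log n - log gcd(n, m)` is bounded by the sum of the defects. -/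
theorem log_sub_gcd {n m : ℕ} (hn : n ≠ 0) (hm : m ≠ 0) (w : ℕ → ℝ)
    (hw : ∀ q ∈ n.primeFactors, (n.factorization q : ℝ) - m.factorization q ≤ w q)
    (hw0 : ∀ q ∈ n.primeFactors, 0 ≤ w q) :
    log n - log (Nat.gcd n m) ≤ ∑ q ∈ n.primeFactors, w q * log q := by
  have hG : Nat.gcd n m ≠ 0 := Nat.gcd_ne_zero_left hn
  have h1 : log n = ∑ q ∈ n.primeFactors, (n.factorization q : ℝ) * log q := by
    rw [Real.log_nat_eq_sum_factorization, Finsupp.sum, Nat.support_factorization]
  have h2 : log (Nat.gcd n m) =
      ∑ q ∈ n.primeFactors, ((Nat.gcd n m).factorization q : ℝ) * log q := by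
    rw [Real.log_nat_eq_sum_factorization, Finsupp.sum, Nat.support_factorization]
    refine Finset.sum_subset (Nat.primeFactors_mono (Nat.gcd_dvd_left n m) hn) ?_
    intro q _ hq
    rw [← Nat.support_factorization, Finsupp.notMem_support_iff] at hq
    rw [hq]; simp
  rw [h1, h2, ← Finset.sum_sub_distrib]
  refine Finset.sum_le_sum fun q hq => ?_
  rw [← sub_mul]
  refine mul_le_mul_of_nonneg_right ?_ (Real.log_natCast_nonneg q)
  rw [Nat.factorization_gcd hn hm, Finsupp.inf_apply]
  have h3 := hw q hq
  have h4 := hw0 q hq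
  rcases le_total (n.factorization q) (m.factorization q) with h5 | h5
  · rw [min_eq_left h5]; simpa using h4
  · rw [min_eq_right h5]; exact h3

/-- Elementary inequality `1 + u ≤ exp (u - u²/3)` for `0 ≤ u ≤ 1/2`. -/
theorem one_add_le_exp {u : ℝ} (h0 : 0 ≤ u) (h1 : u ≤ 1 / 2) : 1 + u ≤ exp (u - u ^ 2 / 3) := by
  have h2 : 0 ≤ u - u ^ 2 / 3 := by nlinarith
  have h3 := Real.quadratic_le_exp_of_nonneg h2
  have h4 : u ^ 2 / 3 ≤ (u - u ^ 2 / 3) ^ 2 / 2 := by
    have h5 : (u - u ^ 2 / 3) ^ 2 = u ^ 2 * (1 - u / 3) ^ 2 := by ring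
    have h6 : (25 / 36 : ℝ) ≤ (1 - u / 3) ^ 2 := by nlinarith
    rw [h5]
    nlinarith [sq_nonneg u]
  linarith

section
variable {a b c k g : ℕ} (h : Prim a b c k g)
include h

/-- Upper bound for `P = gcd a c`. -/
theorem Prim.log_P : (c : ℝ) * log (Nat.gcd a c) ≤ k * log g + a * log a := by
  have ha := h.ha
  have hac := h.hac
  have hG : Nat.gcd a c ≠ 0 := Nat.gcd_ne_zero_left (by omega)
  have h2 : log (Nat.gcd a c) =
      ∑ q ∈ a.primeFactors, ((Nat.gcd a c).factorization q : ℝ) * log q := by
    rw [Real.log_nat_eq_sum_factorization, Finsupp.sum, Nat.support_factorization]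
    refine Finset.sum_subset (Nat.primeFactors_mono (Nat.gcd_dvd_left a c) (by omega)) ?_
    intro q _ hq
    rw [← Nat.support_factorization, Finsupp.notMem_support_iff] at hq
    rw [hq]; simp
  have h3 : log a = ∑ q ∈ a.primeFactors, (a.factorization q : ℝ) * log q := by
    rw [Real.log_nat_eq_sum_factorization, Finsupp.sum, Nat.support_factorization]
  have h4 := sum_fac_log_le g a.primeFactors
  have hk0 : (0 : ℝ) ≤ k := Nat.cast_nonneg k
  calc (c : ℝ) * log (Nat.gcd a c)
      = ∑ q ∈ a.primeFactors, ((c : ℝ) * (Nat.gcd a c).factorization q) * log q := by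
        rw [h2, Finset.mul_sum]
        exact Finset.sum_congr rfl fun q _ => by ring
    _ ≤ ∑ q ∈ a.primeFactors, ((k : ℝ) * g.factorization q + a * a.factorization q) * log q := by
        refine Finset.sum_le_sum fun q hq => ?_
        refine mul_le_mul_of_nonneg_right ?_ (Real.log_natCast_nonneg q)
        obtain ⟨h5, -, -⟩ := h.fac_a (Nat.prime_of_mem_primeFactors hq)
          (Nat.dvd_of_mem_primeFactors hq)
        have h6 : (Nat.gcd a c).factorization q ≤ c.factorization q := by
          rw [Nat.factorization_gcd (by omega) (by omega), Finsupp.inf_apply]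
          exact min_le_right _ _
        have h7 : c * (Nat.gcd a c).factorization q ≤
            k * g.factorization q + a * a.factorization q := by
          rw [h5]; exact Nat.mul_le_mul_left _ h6
        exact_mod_cast h7
    _ = k * ∑ q ∈ a.primeFactors, (g.factorization q : ℝ) * log q +
          a * ∑ q ∈ a.primeFactors, (a.factorization q : ℝ) * log q := by
        rw [Finset.mul_sum, Finset.mul_sum, ← Finset.sum_add_distrib]
        exact Finset.sum_congr rfl fun q _ => by ring
    _ ≤ k * log g + a * log a := by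
        rw [← h3]
        have := mul_le_mul_of_nonneg_left h4 hk0
        linarith

theorem Prim.aPow {t s e0 : ℕ} (hat : a * t = s * c + e0 + t * k) :
    a ^ s ∣ Nat.gcd a c ^ t := by
  have ha := h.ha
  have hac := h.hac
  have hG : Nat.gcd a c ≠ 0 := Nat.gcd_ne_zero_left (by omega)
  rw [← Nat.factorization_prime_le_iff_dvd (pow_ne_zero _ (by omega)) (pow_ne_zero _ hG)]
  intro p hp
  rw [Nat.factorization_pow, Nat.factorization_pow, Finsupp.smul_apply, Finsupp.smul_apply,
    smul_eq_mul, smul_eq_mul, Nat.factorization_gcd (by omega) (by omega), Finsupp.inf_apply]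
  by_cases hpa : p ∣ a
  · obtain ⟨h1, h2, h3⟩ := h.fac_a hp hpa
    rw [min_eq_right h3]
    set α := a.factorization p
    set γ := c.factorization p
    set v := g.factorization p
    have h4 : c * (s * α) ≤ c * (t * γ) := by
      have h5 : c * (t * γ) = t * (k * v) + (a * t) * α := by
        calc c * (t * γ) = t * (c * γ) := by ring
          _ = t * (k * v + a * α) := by rw [h1]
          _ = _ := by ring
      rw [h5, hat]
      have h6 : (s * c + e0 + t * k) * α = c * (s * α) + (e0 + t * k) * α := by ring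
      rw [h6]
      omega
    exact Nat.le_of_mul_le_mul_left h4 (by omega)
  · rw [Nat.factorization_eq_zero_of_not_dvd hpa]
    simp

theorem Prim.bPow {t r e0 : ℕ} (hr : r ≠ 0) (hbt : b * t + e0 = c * r) :
    log ((b ^ r : ℕ) : ℝ) - log ((Nat.gcd (b ^ r) (c ^ t) : ℕ) : ℝ) ≤ (e0 : ℝ) / c * log b := by
  have hb := h.hb
  have hbc := h.hbc
  have hc0 : (0 : ℝ) < c := by exact_mod_cast (by omega : 0 < c)
  have h1 := log_sub_gcd (n := b ^ r) (m := c ^ t) (pow_ne_zero _ (by omega))
    (pow_ne_zero _ (by omega)) (fun q => (e0 : ℝ) / c * b.factorization q) ?_ ?_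
  · refine h1.trans (le_of_eq ?_)
    rw [Nat.primeFactors_pow _ hr]
    have h3 : log b = ∑ q ∈ b.primeFactors, (b.factorization q : ℝ) * log q := by
      rw [Real.log_nat_eq_sum_factorization, Finsupp.sum, Nat.support_factorization]
    rw [h3, Finset.mul_sum]
    exact Finset.sum_congr rfl fun q _ => by ring
  · intro q hq
    rw [Nat.primeFactors_pow _ hr] at hq
    obtain ⟨h4, h5, h6⟩ := h.fac_b (Nat.prime_of_mem_primeFactors hq)
      (Nat.dvd_of_mem_primeFactors hq)
    rw [Nat.factorization_pow, Nat.factorization_pow, Finsupp.smul_apply, Finsupp.smul_apply,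
      smul_eq_mul, smul_eq_mul]
    set β := b.factorization q
    set δ := c.factorization q
    set v := g.factorization q
    have h7 : c * (r * β) ≤ c * (t * δ) + e0 * β := by
      have h8 : c * (t * δ) = t * (k * v) + (b * t) * β := by
        calc c * (t * δ) = t * (c * δ) := by ring
          _ = t * (k * v + b * β) := by rw [h4]
          _ = _ := by ring
      have h9 : c * (r * β) = (b * t) * β + e0 * β := by
        rw [← add_mul, hbt]; ring
      rw [h8, h9]; omega
    have h10 : (c : ℝ) * ((r * β : ℕ) : ℝ) ≤ c * ((t * δ : ℕ) : ℝ) + e0 * β := by exact_mod_cast h7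
    have h11 : (c : ℝ) * (((r * β : ℕ) : ℝ) - ((t * δ : ℕ) : ℝ)) ≤ e0 * β := by linarith
    have h12 : ((r * β : ℕ) : ℝ) - ((t * δ : ℕ) : ℝ) ≤ e0 * β / c := by
      rw [le_div_iff₀ hc0]; linarith
    refine h12.trans (le_of_eq (by ring))
  · intro q _
    positivity

end

end XYZ4
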