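import Mathlib
import Pool.Agent.W_4d3d39_h4.D

/-! Core of the radical theorem, second part. -/

set_option autoImplicit false

namespace XYZ4

open Real

/-- Pure real estimate: near the optimum the two products are close. -/
theorem close_est {s r : ℕ} {c e0 Δ : ℝ} (hs : 1 ≤ s) (hr : 1 ≤ r) (hc : 0 < c) (he0 : 0 ≤ e0)
    (he0Δ : e0 ≤ Δ) (h4Δ : 4 * Δ < c) :
    |((s : ℝ) * c) ^ s * ((r : ℝ) * c) ^ r - ((s : ℝ) * c + Δ) ^ s * ((r : ℝ) * c - e0) ^ r| ≤
      (((s : ℝ) * c) ^ s * ((r : ℝ) * c) ^ r) * (2 * (Δ / c)) ∧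
    ((s : ℝ) * c) ^ s * ((r : ℝ) * c) ^ r ≤
      2 * (((s : ℝ) * c + Δ) ^ s * ((r : ℝ) * c - e0) ^ r) := by
  have hsR : (1 : ℝ) ≤ s := by exact_mod_cast hs
  have hrR : (1 : ℝ) ≤ r := by exact_mod_cast hr
  have hΔ0 : 0 ≤ Δ := he0.trans he0Δ
  have hrc : e0 ≤ r * c := by nlinarith
  have hdc : Δ / c ≤ 1 / 4 := by rw [div_le_iff₀ hc]; linarith
  have hdc0 : 0 ≤ Δ / c := by positivity
  have h5 : ((s : ℝ) * c + Δ) ^ s ≤ ((s : ℝ) * c) ^ s * exp (Δ / c) := by
    have h6 : (s : ℝ) * c + Δ = (s * c) * (1 + Δ / (s * c)) := by field_simp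
    have h7 : 1 + Δ / (s * c) ≤ exp (Δ / (s * c)) := by
      have := Real.add_one_le_exp (Δ / (s * c)); linarith
    rw [h6, mul_pow]
    refine mul_le_mul_of_nonneg_left ?_ (by positivity)
    calc (1 + Δ / (s * c)) ^ s ≤ (exp (Δ / (s * c))) ^ s :=
          pow_le_pow_left₀ (by positivity) h7 s
      _ = exp (Δ / c) := by
          rw [← Real.exp_nat_mul]; congr 1; field_simp
  have h8 : ((r : ℝ) * c - e0) ^ r ≤ ((r : ℝ) * c) ^ r :=
    pow_le_pow_left₀ (by linarith) (by linarith) r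
  have h9 : exp (Δ / c) ≤ 1 + 2 * (Δ / c) := by
    have h12 := Real.abs_exp_sub_one_le (x := Δ / c) (by rw [abs_of_nonneg hdc0]; linarith)
    rw [abs_of_nonneg hdc0] at h12
    have h13 := le_abs_self (exp (Δ / c) - 1)
    linarith
  have h5' : ((s : ℝ) * c) ^ s ≤ ((s : ℝ) * c + Δ) ^ s :=
    pow_le_pow_left₀ (by positivity) (by linarith) s
  have h6' : ((r : ℝ) * c) ^ r * (1 - Δ / c) ≤ ((r : ℝ) * c - e0) ^ r := by
    have h7 : (r : ℝ) * c - e0 = (r * c) * (1 + (-(e0 / (r * c)))) := by field_simp; ring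
    have h8 : e0 / (r * c) ≤ 1 := by rw [div_le_one (by positivity)]; exact hrc
    have h9 := one_add_mul_le_pow (a := -(e0 / (r * c))) (by linarith) r
    have h10 : (r : ℝ) * -(e0 / (r * c)) = -(e0 / c) := by field_simp
    rw [h10] at h9
    have h11 : e0 / c ≤ Δ / c := div_le_div_of_nonneg_right he0Δ hc.le
    rw [h7, mul_pow ((r : ℝ) * c) (1 + -(e0 / ((r : ℝ) * c)))]
    have h12 : (0 : ℝ) ≤ ((r : ℝ) * c) ^ r := by positivity
    have h13 : 1 - Δ / c ≤ (1 + -(e0 / ((r : ℝ) * c))) ^ r := by linarith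
    exact mul_le_mul_of_nonneg_left h13 h12
  have hrc' : 0 ≤ (r : ℝ) * c - e0 := by linarith
  generalize hA : ((s : ℝ) * c) ^ s = A at *
  generalize hA' : ((s : ℝ) * c + Δ) ^ s = A' at *
  generalize hR : ((r : ℝ) * c) ^ r = R at *
  generalize hR' : ((r : ℝ) * c - e0) ^ r = R' at *
  have hA0 : 0 < A := by rw [← hA]; positivity
  have hR0 : 0 < R := by rw [← hR]; positivity
  have hR'0 : 0 ≤ R' := by rw [← hR']; exact pow_nonneg hrc' r
  generalize hd : Δ / c = d at *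
  have hup : A' * R' ≤ (A * R) * (1 + 2 * d) := by
    calc A' * R' ≤ (A * exp d) * R := mul_le_mul h5 h8 hR'0 (by positivity)
      _ = (A * R) * exp d := by ring
      _ ≤ (A * R) * (1 + 2 * d) := mul_le_mul_of_nonneg_left h9 (by positivity)
  have hlo : (A * R) * (1 - d) ≤ A' * R' := by
    calc (A * R) * (1 - d) = A * (R * (1 - d)) := by ring
      _ ≤ A' * R' := mul_le_mul h5' h6' (mul_nonneg hR0.le (by linarith : (0 : ℝ) ≤ 1 - d)) (hA0.le.trans h5')
  have hAR : 0 < A * R := by positivity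
  generalize A * R = X at *
  generalize A' * R' = X' at *
  constructor
  · rw [abs_le]
    constructor
    · nlinarith
    · nlinarith
  · nlinarith

section
variable {a b c k g : ℕ} (h : Prim a b c k g)
include h

/-- The ratio `1` is impossible. -/
theorem Prim.core1 {e0 : ℕ} {ρ : ℝ} (hρ : 0 ≤ ρ) (hbe : b + e0 = c)
    (he : (e0 : ℝ) * log c ≤ ρ * c) (h1 : 8 * exp (1 + ρ) * ρ < log c)
    (h2 : 8 * exp (1 + ρ) * k ≤ c) (h3 : (k : ℝ) * log c ≤ c) : False := by
  have ha := h.ha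
  have hb := h.hb
  have hac := h.hac
  have hbc := h.hbc
  have hsum := h.hsum
  have hcR : (0 : ℝ) < c := by exact_mod_cast (by omega : 0 < c)
  have haR : (0 : ℝ) < a := by exact_mod_cast (by omega : 0 < a)
  have hae : a = k + e0 := by omega
  have hE1 : 1 ≤ exp (1 + ρ) := Real.one_le_exp (by linarith)
  have hE0 : 0 < exp (1 + ρ) := by positivity
  have hlogc : 0 < log c := lt_of_le_of_lt (by positivity) h1
  -- c ≤ P * a
  have hP0 : 0 < Nat.gcd a c := Nat.gcd_pos_of_pos_left _ (by omega)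
  have hcPa : c ≤ Nat.gcd a c * a := by
    have hQ : Nat.gcd b c ∣ e0 := by
      have : e0 = c - b := by omega
      rw [this]; exact Nat.dvd_sub (Nat.gcd_dvd_right b c) (Nat.gcd_dvd_left b c)
    have hQle : Nat.gcd b c ≤ e0 := Nat.le_of_dvd (by omega) hQ
    calc c = Nat.gcd a c * Nat.gcd b c := h.eq_gcd_mul
      _ ≤ Nat.gcd a c * a := Nat.mul_le_mul_left _ (by omega)
  have hPR : (0 : ℝ) < Nat.gcd a c := by exact_mod_cast hP0
  have h4 : log c ≤ log (Nat.gcd a c) + log a := by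
    rw [← Real.log_mul hPR.ne' haR.ne']
    exact Real.log_le_log hcR (by exact_mod_cast hcPa)
  have h5 := h.log_P
  have h6 := h.log_g
  have h7 : (a : ℝ) * log a ≤ a * log c :=
    mul_le_mul_of_nonneg_left (Real.log_le_log haR (by exact_mod_cast hac.le)) haR.le
  have haeR : (a : ℝ) = k + e0 := by exact_mod_cast hae
  have h8 : (c : ℝ) * log c < c * (log 2 + (1 + ρ) + log a) := by
    have h9 : (c : ℝ) * log c ≤ c * log (Nat.gcd a c) + c * log a := by
      have := mul_le_mul_of_nonneg_left h4 hcR.le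
      linarith
    have h10 : (a : ℝ) * log c ≤ c + ρ * c := by rw [haeR]; linarith
    linarith
  have h11 : log c < log 2 + (1 + ρ) + log a := lt_of_mul_lt_mul_left h8 hcR.le
  have h12 : log c < log (2 * exp (1 + ρ) * a) := by
    rw [Real.log_mul (by positivity) haR.ne', Real.log_mul (by norm_num) hE0.ne', Real.log_exp]
    exact h11
  have h13 : (c : ℝ) < 2 * exp (1 + ρ) * a := (Real.log_lt_log_iff hcR (by positivity)).1 h12
  have h14 : 8 * exp (1 + ρ) * (e0 : ℝ) ≤ c := by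
    rcases hρ.eq_or_lt with h0 | h0
    · subst h0
      have h15 : (e0 : ℝ) ≤ 0 := by
        by_contra hcon
        have : 0 < (e0 : ℝ) * log c := mul_pos (not_le.1 hcon) hlogc
        linarith
      nlinarith
    · have h15 : (e0 : ℝ) * (8 * exp (1 + ρ) * ρ) ≤ ρ * c :=
        (mul_le_mul_of_nonneg_left h1.le (Nat.cast_nonneg _)).trans he
      have h16 : ρ * (8 * exp (1 + ρ) * (e0 : ℝ)) ≤ ρ * c := by linarith
      exact le_of_mul_le_mul_left h16 h0
  have h17 : 8 * exp (1 + ρ) * (a : ℝ) ≤ 2 * c := by rw [haeR]; linarith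
  linarith

/-- Closeness forces the exact relation. -/
theorem Prim.core2 {B t s r e0 : ℕ} {ρ : ℝ} (hρ : 0 ≤ ρ) (hs : 1 ≤ s) (hr : 1 ≤ r)
    (ht : t = s + r) (htB : t ≤ B) (hbt : b * t + e0 = c * r)
    (he : (e0 : ℝ) * log c ≤ ρ * c)
    (hsmall : 4 * (B : ℝ) ^ B * exp ρ * ((e0 : ℝ) + B * k) < c) :
    s ^ s * r ^ r * c ^ t = t ^ t * (a ^ s * b ^ r) ∧
      ∃ D : ℕ, 0 < D ∧ (D : ℝ) ≤ exp ρ ∧ b ^ r ∣ D * Nat.gcd b c ^ t := by
  have ha := h.ha
  have hb := h.hb
  have hac := h.hac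
  have hbc := h.hbc
  have hsum := h.hsum
  have hcR : (0 : ℝ) < c := by exact_mod_cast (by omega : 0 < c)
  have hc1R : (1 : ℝ) ≤ c := by exact_mod_cast (by omega : 1 ≤ c)
  have hbR : (0 : ℝ) < b := by exact_mod_cast (by omega : 0 < b)
  have hat : a * t = s * c + e0 + t * k := by
    have h1 : (a + b) * t = (c + k) * t := by rw [hsum]
    have h2 : c * t = c * s + c * r := by rw [ht]; ring
    have h3 : (a + b) * t = a * t + b * t := by ring
    have h4 : (c + k) * t = c * t + t * k := by ring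
    have h5 : s * c = c * s := by ring
    omega
  set G := Nat.gcd (b ^ r) (c ^ t) with hG
  have hGpos : 0 < G := Nat.gcd_pos_of_pos_left _ (by positivity)
  obtain ⟨D, hD⟩ : G ∣ b ^ r := Nat.gcd_dvd_left _ _
  have hDpos : 0 < D := by
    rcases Nat.eq_zero_or_pos D with h0 | h0
    · rw [h0, mul_zero] at hD
      have : 0 < b ^ r := by positivity
      omega
    · exact h0
  have hDR : (0 : ℝ) < D := by exact_mod_cast hDpos
  -- size of D
  have hDle : (D : ℝ) ≤ exp ρ := by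
    have h1 := h.bPow (t := t) (by omega) hbt
    rw [← hG] at h1
    have h2 : log ((b ^ r : ℕ) : ℝ) = log (G : ℝ) + log (D : ℝ) := by
      rw [hD]; push_cast
      exact Real.log_mul (by exact_mod_cast hGpos.ne') hDR.ne'
    have h3 : log (D : ℝ) ≤ (e0 : ℝ) / c * log b := by linarith
    have h4 : (e0 : ℝ) / c * log b ≤ ρ := by
      have h5 : log b ≤ log c := Real.log_le_log hbR (by exact_mod_cast hbc.le)
      have h6 : (e0 : ℝ) / c * log b ≤ (e0 : ℝ) / c * log c :=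
        mul_le_mul_of_nonneg_left h5 (by positivity)
      have h7 : (e0 : ℝ) / c * log c ≤ ρ := by
        rw [div_mul_eq_mul_div, div_le_iff₀ hcR]; exact he
      linarith
    calc (D : ℝ) = exp (log D) := (Real.exp_log hDR).symm
      _ ≤ exp ρ := Real.exp_le_exp.2 (h3.trans h4)
  have hbD : b ^ r ∣ D * c ^ t := by
    have h1 : G ∣ c ^ t := Nat.gcd_dvd_right _ _
    rw [hD, mul_comm G D]
    exact Nat.mul_dvd_mul_left D h1
  have hPc : Nat.gcd a c ^ t ∣ c ^ t := pow_dvd_pow_of_dvd (Nat.gcd_dvd_right a c) t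
  have haD : a ^ s ∣ D * c ^ t := (h.aPow hat).trans (hPc.mul_left D)
  have hcop : Nat.Coprime (a ^ s) (b ^ r) := Nat.Coprime.pow _ _ h.hcop
  have hY : a ^ s * b ^ r ∣ D * c ^ t := hcop.mul_dvd_of_dvd_of_dvd haD hbD
  constructor
  · by_contra hne
    set X1 := s ^ s * r ^ r * c ^ t with hX1
    set Y := a ^ s * b ^ r with hYdef
    set X2 := t ^ t * Y with hX2
    have hYpos : 0 < Y := by positivity
    -- divisibility of the difference
    have h1 : (Y : ℤ) ∣ (D : ℤ) * ((X1 : ℤ) - X2) := by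
      have h2 : (Y : ℤ) ∣ ((D * X1 : ℕ) : ℤ) := by
        apply Int.natCast_dvd_natCast.2
        have : D * X1 = (s ^ s * r ^ r) * (D * c ^ t) := by rw [hX1]; ring
        rw [this]; exact hY.mul_left _
      have h3 : (Y : ℤ) ∣ ((D * X2 : ℕ) : ℤ) := by
        apply Int.natCast_dvd_natCast.2
        have : D * X2 = (D * t ^ t) * Y := by rw [hX2]; ring
        rw [this]; exact Dvd.intro_left _ rfl
      have h4 := dvd_sub h2 h3
      have h5 : ((D * X1 : ℕ) : ℤ) - ((D * X2 : ℕ) : ℤ) = (D : ℤ) * ((X1 : ℤ) - X2) := by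
        push_cast; ring
      rwa [h5] at h4
    have h2 : (D : ℤ) * ((X1 : ℤ) - X2) ≠ 0 := by
      refine mul_ne_zero (by exact_mod_cast hDpos.ne') ?_
      intro h3
      apply hne
      have : (X1 : ℤ) = X2 := by linarith
      exact_mod_cast this
    have h3 : (Y : ℤ) ≤ |(D : ℤ) * ((X1 : ℤ) - X2)| :=
      Int.le_of_dvd (abs_pos.2 h2) ((dvd_abs _ _).2 h1)
    have h4 : (Y : ℝ) ≤ D * |(X1 : ℝ) - X2| := by
      have h5 : ((Y : ℤ) : ℝ) ≤ ((|(D : ℤ) * ((X1 : ℤ) - X2)| : ℤ) : ℝ) := by exact_mod_cast h3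
      push_cast at h5
      rwa [abs_mul, abs_of_pos hDR] at h5
    -- real estimates
    have hsR : (1 : ℝ) ≤ s := by exact_mod_cast hs
    have hrR : (1 : ℝ) ≤ r := by exact_mod_cast hr
    have htR : (1 : ℝ) ≤ t := by exact_mod_cast (by omega : 1 ≤ t)
    have hBR : (1 : ℝ) ≤ B := by exact_mod_cast (by omega : 1 ≤ B)
    set Δ : ℝ := (e0 : ℝ) + t * k with hΔ
    have hΔ0 : 0 ≤ Δ := by positivity
    have he0 : (0 : ℝ) ≤ e0 := Nat.cast_nonneg _
    have hk0 : (0 : ℝ) ≤ k := Nat.cast_nonneg _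
    have he0Δ : (e0 : ℝ) ≤ Δ := by
      have : (0 : ℝ) ≤ t * k := by positivity
      linarith
    have hΔB : Δ ≤ (e0 : ℝ) + B * k := by
      have : (t : ℝ) * k ≤ B * k := mul_le_mul_of_nonneg_right (by exact_mod_cast htB) hk0
      linarith
    have hBB : (1 : ℝ) ≤ (B : ℝ) ^ B := one_le_pow₀ hBR
    have heρ : (1 : ℝ) ≤ exp ρ := Real.one_le_exp hρ
    have h4Δ : 4 * Δ < c := by
      have h5 : 4 * Δ ≤ 4 * (B : ℝ) ^ B * exp ρ * ((e0 : ℝ) + B * k) := by
        have h6 : (1 : ℝ) ≤ (B : ℝ) ^ B * exp ρ := by nlinarith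
        have h7 : 0 ≤ (e0 : ℝ) + B * k := by positivity
        nlinarith
      linarith
    have hatR : (a : ℝ) * t = s * c + Δ := by
      have : ((a * t : ℕ) : ℝ) = ((s * c + e0 + t * k : ℕ) : ℝ) := by exact_mod_cast hat
      push_cast at this; rw [this, hΔ]; ring
    have hbtR : (b : ℝ) * t = r * c - e0 := by
      have : ((b * t + e0 : ℕ) : ℝ) = ((c * r : ℕ) : ℝ) := by exact_mod_cast hbt
      push_cast at this; linarith
    have hX1R : (X1 : ℝ) = ((s : ℝ) * c) ^ s * ((r : ℝ) * c) ^ r := by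
      rw [hX1, ht]; push_cast; rw [mul_pow, mul_pow, pow_add]; ring
    have hX2R : (X2 : ℝ) = ((s : ℝ) * c + Δ) ^ s * ((r : ℝ) * c - e0) ^ r := by
      rw [← hatR, ← hbtR, hX2, hYdef]; push_cast
      rw [mul_pow, mul_pow]
      have : (t : ℝ) ^ t = (t : ℝ) ^ s * (t : ℝ) ^ r := by rw [← pow_add, ← ht]
      rw [this]; ring
    have hX1pos : (0 : ℝ) < X1 := by rw [hX1R]; positivity
    obtain ⟨hcl1, hcl2⟩ := close_est hs hr hcR he0 he0Δ h4Δ
    rw [← hX1R, ← hX2R] at hcl1 hcl2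
    have habs : |(X1 : ℝ) - X2| ≤ X1 * (2 * (Δ / c)) := hcl1
    have hX2half : (X1 : ℝ) ≤ 2 * X2 := hcl2
    have hdc0 : 0 ≤ Δ / c := by positivity
    have hX2Y : (X2 : ℝ) = (t : ℝ) ^ t * Y := by rw [hX2]; push_cast; ring
    have hYR : (0 : ℝ) < Y := by exact_mod_cast hYpos
    have h5 : (Y : ℝ) ≤ D * ((2 * ((t : ℝ) ^ t * Y)) * (2 * (Δ / c))) := by
      refine h4.trans (mul_le_mul_of_nonneg_left (habs.trans ?_) hDR.le)
      refine mul_le_mul_of_nonneg_right ?_ (by positivity)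
      rw [← hX2Y]; exact hX2half
    have h6 : (1 : ℝ) ≤ D * ((2 * (t : ℝ) ^ t) * (2 * (Δ / c))) := by
      have h7 : (Y : ℝ) * 1 ≤ Y * (D * ((2 * (t : ℝ) ^ t) * (2 * (Δ / c)))) := by linarith
      exact le_of_mul_le_mul_left h7 hYR
    have h7 : (c : ℝ) ≤ 4 * (t : ℝ) ^ t * D * Δ := by
      have h8 : D * ((2 * (t : ℝ) ^ t) * (2 * (Δ / c))) = (4 * (t : ℝ) ^ t * D * Δ) / c := by
        field_simp; ring
      rw [h8, le_div_iff₀ hcR, one_mul] at h6
      exact h6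
    have h8 : (t : ℝ) ^ t ≤ (B : ℝ) ^ B := by
      calc (t : ℝ) ^ t ≤ (B : ℝ) ^ t := pow_le_pow_left₀ (by linarith) (by exact_mod_cast htB) t
        _ ≤ (B : ℝ) ^ B := pow_le_pow_right₀ hBR htB
    have h9 : 4 * (t : ℝ) ^ t * D * Δ ≤ 4 * (B : ℝ) ^ B * exp ρ * ((e0 : ℝ) + B * k) := by
      refine mul_le_mul (mul_le_mul ?_ hDle hDR.le (by positivity)) hΔB hΔ0 (by positivity)
      linarith
    linarith
  · refine ⟨D, hDpos, hDle, ?_⟩
    have h1 : D * c ^ t = (D * Nat.gcd b c ^ t) * Nat.gcd a c ^ t := by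
      conv_lhs => rw [h.eq_gcd_mul]
      rw [mul_pow]; ring
    rw [h1] at hbD
    have h2 : Nat.Coprime (b ^ r) (Nat.gcd a c ^ t) := by
      apply Nat.Coprime.pow
      exact Nat.Coprime.coprime_dvd_right (Nat.gcd_dvd_left a c) h.hcop.symm
    exact h2.dvd_of_dvd_mul_right hbD

end

end XYZ4
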