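import Mathlib
import Pool.Agent.W_4d3d39_h4.D2

/-! Core of the radical theorem, third part. -/

set_option autoImplicit false

namespace XYZ4

open Real

/-- From the exact relation: the displacement is at most of square root size. -/
theorem rel_sq {s r : ℕ} {c e0 Δ : ℝ} (hs : 1 ≤ s) (hr : 1 ≤ r) (hc : 0 < c) (he0 : 0 ≤ e0)
    (he0Δ : e0 ≤ Δ) (h4Δ : 4 * Δ < c)
    (hrel : ((s : ℝ) * c + Δ) ^ s * ((r : ℝ) * c - e0) ^ r =
      ((s : ℝ) * c) ^ s * ((r : ℝ) * c) ^ r) :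
    Δ ^ 2 ≤ 3 * s * c * (Δ - e0) := by
  have hsR : (1 : ℝ) ≤ s := by exact_mod_cast hs
  have hrR : (1 : ℝ) ≤ r := by exact_mod_cast hr
  have hΔ0 : 0 ≤ Δ := he0.trans he0Δ
  have hsc : 0 < (s : ℝ) * c := by positivity
  have hrc : 0 < (r : ℝ) * c := by positivity
  have hcr : c ≤ r * c := by nlinarith
  have hcs : c ≤ s * c := by nlinarith
  have hrc' : 0 < (r : ℝ) * c - e0 := by linarith
  have hsc' : 0 < (s : ℝ) * c + Δ := by linarith
  have h1 : s * log ((s : ℝ) * c + Δ) + r * log ((r : ℝ) * c - e0) =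
      s * log ((s : ℝ) * c) + r * log ((r : ℝ) * c) := by
    have h2 := congrArg Real.log hrel
    rw [Real.log_mul (by positivity) (by positivity), Real.log_mul (by positivity) (by positivity),
      Real.log_pow, Real.log_pow, Real.log_pow, Real.log_pow] at h2
    exact h2
  set u := Δ / (s * c) with hu
  set w := e0 / (r * c) with hw
  have hu0 : 0 ≤ u := by positivity
  have hu1 : u ≤ 1 / 2 := by
    rw [hu, div_le_iff₀ hsc]; linarith
  have h3 : log ((s : ℝ) * c + Δ) ≤ log ((s : ℝ) * c) + (u - u ^ 2 / 3) := by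
    have h4 : (s : ℝ) * c + Δ = (s * c) * (1 + u) := by rw [hu]; field_simp
    rw [h4, Real.log_mul hsc.ne' (by positivity)]
    have h5 := Real.log_le_log (by positivity) (one_add_le_exp hu0 hu1)
    rw [Real.log_exp] at h5
    linarith
  have h6 : log ((r : ℝ) * c - e0) ≤ log ((r : ℝ) * c) - w := by
    have h7 : (r : ℝ) * c - e0 = (r * c) * (1 - w) := by rw [hw]; field_simp
    have h8 : 0 < 1 - w := by
      rw [h7] at hrc'
      exact (mul_pos_iff_of_pos_left hrc).1 hrc'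
    rw [h7, Real.log_mul hrc.ne' h8.ne']
    have h9 := Real.log_le_sub_one_of_pos h8
    linarith
  have h10 : (s : ℝ) * (u ^ 2 / 3) ≤ s * u - r * w := by
    have h11 := mul_le_mul_of_nonneg_left h3 (by linarith : (0 : ℝ) ≤ s)
    have h12 := mul_le_mul_of_nonneg_left h6 (by linarith : (0 : ℝ) ≤ r)
    linarith
  have h13 : (s : ℝ) * u = Δ / c := by rw [hu]; field_simp
  have h14 : (r : ℝ) * w = e0 / c := by rw [hw]; field_simp
  have h15 : (s : ℝ) * (u ^ 2 / 3) = Δ ^ 2 / (3 * s * c ^ 2) := by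
    rw [hu]; field_simp
  rw [h13, h14, h15, ← sub_div, div_le_div_iff₀ (by positivity) hc] at h10
  have h16 : c * Δ ^ 2 ≤ c * (3 * s * c * (Δ - e0)) := by linarith
  exact le_of_mul_le_mul_left h16 hc

section
variable {a b c k g : ℕ} (h : Prim a b c k g)
include h

theorem Prim.core3 {B t s r e0 D : ℕ} {ρ : ℝ} (hρ : 0 ≤ ρ) (hs : 1 ≤ s) (hr : 1 ≤ r)
    (ht : t = s + r) (htB : t ≤ B) (hne : s ≠ r) (hbt : b * t + e0 = c * r)
    (hsmall : 4 * ((e0 : ℝ) + B * k) < c)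
    (hrel : s ^ s * r ^ r * c ^ t = t ^ t * (a ^ s * b ^ r))
    (hD0 : 0 < D) (hD : (D : ℝ) ≤ exp ρ) (hDb : b ^ r ∣ D * Nat.gcd b c ^ t)
    (hbig : exp (2 * ρ) * (12 * (B : ℝ) ^ 4 * k) ^ B < c) : False := by
  have ha := h.ha
  have hb := h.hb
  have hac := h.hac
  have hbc := h.hbc
  have hk := h.hk
  have hsum := h.hsum
  have hcR : (0 : ℝ) < c := by exact_mod_cast (by omega : 0 < c)
  have hc1R : (1 : ℝ) ≤ c := by exact_mod_cast (by omega : 1 ≤ c)
  have hbR : (0 : ℝ) < b := by exact_mod_cast (by omega : 0 < b)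
  have haR : (0 : ℝ) < a := by exact_mod_cast (by omega : 0 < a)
  have hkR : (1 : ℝ) ≤ k := by exact_mod_cast hk
  have hsR : (1 : ℝ) ≤ s := by exact_mod_cast hs
  have hrR : (1 : ℝ) ≤ r := by exact_mod_cast hr
  have htR : (1 : ℝ) ≤ t := by exact_mod_cast (by omega : 1 ≤ t)
  have hstR : (s : ℝ) ≤ t := by exact_mod_cast (by omega : s ≤ t)
  have hrtR : (r : ℝ) ≤ t := by exact_mod_cast (by omega : r ≤ t)
  have hBR : (1 : ℝ) ≤ B := by exact_mod_cast (by omega : 1 ≤ B)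
  have htBR : (t : ℝ) ≤ B := by exact_mod_cast htB
  have hat : a * t = s * c + e0 + t * k := by
    have h1 : (a + b) * t = (c + k) * t := by rw [hsum]
    have h2 : c * t = c * s + c * r := by rw [ht]; ring
    have h3 : (a + b) * t = a * t + b * t := by ring
    have h4 : (c + k) * t = c * t + t * k := by ring
    have h5 : s * c = c * s := by ring
    omega
  set Δ : ℝ := (e0 : ℝ) + t * k with hΔ
  have he0 : (0 : ℝ) ≤ e0 := Nat.cast_nonneg _
  have hΔpos : 0 < Δ := by positivity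
  have he0Δ : (e0 : ℝ) ≤ Δ := by
    have : (0 : ℝ) ≤ t * k := by positivity
    linarith
  have hΔB : Δ ≤ (e0 : ℝ) + B * k := by
    have : (t : ℝ) * k ≤ B * k := mul_le_mul_of_nonneg_right htBR (by linarith)
    linarith
  have h4Δ : 4 * Δ < c := by linarith
  have hatR : (a : ℝ) * t = s * c + Δ := by
    have : ((a * t : ℕ) : ℝ) = ((s * c + e0 + t * k : ℕ) : ℝ) := by exact_mod_cast hat
    push_cast at this; rw [this, hΔ]; ring
  have hbtR : (b : ℝ) * t = r * c - e0 := by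
    have : ((b * t + e0 : ℕ) : ℝ) = ((c * r : ℕ) : ℝ) := by exact_mod_cast hbt
    push_cast at this; linarith
  have hrelR : ((s : ℝ) * c + Δ) ^ s * ((r : ℝ) * c - e0) ^ r =
      ((s : ℝ) * c) ^ s * ((r : ℝ) * c) ^ r := by
    rw [← hatR, ← hbtR]
    have h1 : ((s ^ s * r ^ r * c ^ t : ℕ) : ℝ) = ((t ^ t * (a ^ s * b ^ r) : ℕ) : ℝ) := by
      exact_mod_cast hrel
    push_cast at h1
    have h2 : (t : ℝ) ^ t = (t : ℝ) ^ s * (t : ℝ) ^ r := by rw [← pow_add, ← ht]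
    have h3 : (c : ℝ) ^ t = (c : ℝ) ^ s * (c : ℝ) ^ r := by rw [← pow_add, ← ht]
    rw [h2, h3] at h1
    rw [mul_pow, mul_pow, mul_pow, mul_pow]
    linarith
  have hsq : Δ ^ 2 ≤ 3 * s * c * (t * k) := by
    have h1 := rel_sq hs hr hcR he0 he0Δ h4Δ hrelR
    have h2 : Δ - e0 = t * k := by rw [hΔ]; ring
    rwa [h2] at h1
  have hsq' : Δ ^ 2 ≤ c * (3 * (t : ℝ) ^ 2 * k) := by
    refine hsq.trans ?_
    have h1 : 3 * (s : ℝ) * c * (t * k) = c * (3 * (s * t) * k) := by ring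
    rw [h1]
    refine mul_le_mul_of_nonneg_left ?_ hcR.le
    refine mul_le_mul_of_nonneg_right ?_ (by linarith)
    nlinarith
  -- the final size comparison
  have hfin : ∀ x : ℝ, x ≤ exp (2 * ρ) * (12 * (t : ℝ) ^ 4 * k) ^ t → x < c := by
    intro x hx
    refine lt_of_le_of_lt (hx.trans ?_) hbig
    refine mul_le_mul_of_nonneg_left ?_ (exp_pos _).le
    have h1 : (1 : ℝ) ≤ 12 * (B : ℝ) ^ 4 * k := by
      have h2 : (1 : ℝ) ≤ (B : ℝ) ^ 4 := one_le_pow₀ hBR
      nlinarith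
    calc (12 * (t : ℝ) ^ 4 * k) ^ t ≤ (12 * (B : ℝ) ^ 4 * k) ^ t := by
          refine pow_le_pow_left₀ (by positivity) ?_ t
          refine mul_le_mul_of_nonneg_right ?_ (by linarith)
          exact mul_le_mul_of_nonneg_left (pow_le_pow_left₀ (by linarith) htBR 4) (by norm_num)
      _ ≤ (12 * (B : ℝ) ^ 4 * k) ^ B := pow_le_pow_right₀ h1 htB
  have hexp1 : (1 : ℝ) ≤ exp (2 * ρ) := Real.one_le_exp (by linarith)
  have hPpos : 0 < Nat.gcd a c := Nat.gcd_pos_of_pos_left _ (by omega)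
  have hQpos : 0 < Nat.gcd b c := Nat.gcd_pos_of_pos_left _ (by omega)
  -- P ≤ Δ
  have hPΔ : (Nat.gcd a c : ℝ) ≤ Δ := by
    have h1 : Nat.gcd a c ∣ e0 + t * k := by
      have h2 : Nat.gcd a c ∣ a * t := (Nat.gcd_dvd_left a c).mul_right t
      have h3 : Nat.gcd a c ∣ s * c := (Nat.gcd_dvd_right a c).mul_left s
      have h4 : a * t = s * c + (e0 + t * k) := by omega
      rw [h4] at h2
      exact (Nat.dvd_add_right h3).1 h2
    have h2 : Nat.gcd a c ≤ e0 + t * k :=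
      Nat.le_of_dvd (Nat.add_pos_right _ (Nat.mul_pos (by omega) (by omega))) h1
    have h3 : ((Nat.gcd a c : ℕ) : ℝ) ≤ ((e0 + t * k : ℕ) : ℝ) := by exact_mod_cast h2
    push_cast at h3
    exact h3
  have haP : (a : ℝ) ^ s ≤ (Nat.gcd a c : ℝ) ^ t := by
    have h1 : a ^ s ≤ Nat.gcd a c ^ t := Nat.le_of_dvd (pow_pos hPpos t) (h.aPow hat)
    exact_mod_cast h1
  have hsc : ((s : ℝ) * c) ^ s ≤ (t : ℝ) ^ s * Δ ^ t := by
    calc ((s : ℝ) * c) ^ s ≤ ((a : ℝ) * t) ^ s := by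
          rw [hatR]; exact pow_le_pow_left₀ (by positivity) (by linarith) s
      _ = (t : ℝ) ^ s * (a : ℝ) ^ s := by rw [mul_pow]; ring
      _ ≤ (t : ℝ) ^ s * Δ ^ t := by
          refine mul_le_mul_of_nonneg_left ?_ (by positivity)
          exact haP.trans (pow_le_pow_left₀ (Nat.cast_nonneg _) hPΔ t)
  rcases lt_or_gt_of_ne hne with hlt | hgt
  · -- s < r
    rcases Nat.eq_zero_or_pos e0 with h0 | h0
    · -- e0 = 0
      have h1 : Δ = t * k := by rw [hΔ, h0]; simp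
      have h2 : (c : ℝ) ≤ ((s : ℝ) * c) ^ s := by
        have h3 : (c : ℝ) ≤ s * c := by nlinarith
        exact h3.trans (le_self_pow₀ (by linarith) (by omega))
      have h4 : (t : ℝ) ^ s * Δ ^ t ≤ ((t : ℝ) ^ 2 * k) ^ t := by
        rw [h1]
        calc (t : ℝ) ^ s * (t * k) ^ t ≤ (t : ℝ) ^ t * (t * k) ^ t :=
              mul_le_mul_of_nonneg_right (pow_le_pow_right₀ htR (by omega)) (by positivity)
          _ = _ := by rw [← mul_pow]; ring
      have h5 : ((t : ℝ) ^ 2 * k) ^ t ≤ exp (2 * ρ) * (12 * (t : ℝ) ^ 4 * k) ^ t := by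
        have h6 : ((t : ℝ) ^ 2 * k) ^ t ≤ (12 * (t : ℝ) ^ 4 * k) ^ t := by
          refine pow_le_pow_left₀ (by positivity) ?_ t
          refine mul_le_mul_of_nonneg_right ?_ (by linarith)
          have h7 : (t : ℝ) ^ 2 ≤ (t : ℝ) ^ 4 := pow_le_pow_right₀ htR (by norm_num)
          have h9 : (0 : ℝ) < (t : ℝ) ^ 4 := by positivity
          linarith
        have h8 : 0 < (12 * (t : ℝ) ^ 4 * k) ^ t := by positivity
        exact h6.trans (le_mul_of_one_le_left h8.le hexp1)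
      exact lt_irrefl _ (hfin c (((h2.trans hsc).trans h4).trans h5))
    · -- e0 > 0
      have hQe : (Nat.gcd b c : ℝ) ≤ Δ := by
        have h1 : Nat.gcd b c ∣ e0 := by
          have h2 : Nat.gcd b c ∣ b * t := (Nat.gcd_dvd_left b c).mul_right t
          have h3 : Nat.gcd b c ∣ c * r := (Nat.gcd_dvd_right b c).mul_right r
          rw [← hbt] at h3
          exact (Nat.dvd_add_right h2).1 h3
        have h2 : Nat.gcd b c ≤ e0 := Nat.le_of_dvd h0 h1
        have h3 : ((Nat.gcd b c : ℕ) : ℝ) ≤ (e0 : ℝ) := by exact_mod_cast h2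
        exact h3.trans he0Δ
      have hbQ : (b : ℝ) ^ r ≤ D * Δ ^ t := by
        have h1 : b ^ r ≤ D * Nat.gcd b c ^ t :=
          Nat.le_of_dvd (Nat.mul_pos hD0 (pow_pos hQpos t)) hDb
        have h2 : (b : ℝ) ^ r ≤ D * (Nat.gcd b c : ℝ) ^ t := by exact_mod_cast h1
        refine h2.trans (mul_le_mul_of_nonneg_left ?_ (Nat.cast_nonneg _))
        exact pow_le_pow_left₀ (Nat.cast_nonneg _) hQe t
      have hc2 : (c : ℝ) ≤ 2 * t * b := by
        have h1 : (c : ℝ) ≤ r * c := by nlinarith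
        nlinarith
      have h1 : (c : ℝ) ^ (2 * r) ≤ (c : ℝ) ^ t * ((D : ℝ) ^ 2 * (12 * (t : ℝ) ^ 4 * k) ^ t) := by
        have h2 : (c : ℝ) ^ r ≤ (2 * t) ^ r * (D * Δ ^ t) := by
          calc (c : ℝ) ^ r ≤ (2 * t * b) ^ r := pow_le_pow_left₀ hcR.le hc2 r
            _ = (2 * t) ^ r * (b : ℝ) ^ r := by rw [mul_pow]
            _ ≤ _ := mul_le_mul_of_nonneg_left hbQ (by positivity)
        calc (c : ℝ) ^ (2 * r) = ((c : ℝ) ^ r) ^ 2 := by rw [← pow_mul, mul_comm]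
          _ ≤ ((2 * t) ^ r * (D * Δ ^ t)) ^ 2 := pow_le_pow_left₀ (by positivity) h2 2
          _ = (((2 * t) ^ 2) ^ r * (D : ℝ) ^ 2) * (Δ ^ 2) ^ t := by
              generalize 2 * (t : ℝ) = y
              ring
          _ ≤ (((2 * (t : ℝ)) ^ 2) ^ t * (D : ℝ) ^ 2) * (c * (3 * (t : ℝ) ^ 2 * k)) ^ t := by
              refine mul_le_mul ?_ (pow_le_pow_left₀ (by positivity) hsq' t) (by positivity)
                (by positivity)
              refine mul_le_mul_of_nonneg_right ?_ (by positivity)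
              refine pow_le_pow_right₀ ?_ (by omega)
              nlinarith
          _ = (c : ℝ) ^ t * ((D : ℝ) ^ 2 * (((2 * (t : ℝ)) ^ 2) ^ t * (3 * (t : ℝ) ^ 2 * k) ^ t)) := by
              rw [mul_pow (c : ℝ)]
              generalize ((2 * (t : ℝ)) ^ 2) ^ t = y1
              generalize (3 * (t : ℝ) ^ 2 * k) ^ t = y2
              ring
          _ = _ := by
              rw [← mul_pow ((2 * (t : ℝ)) ^ 2), show (2 * (t : ℝ)) ^ 2 * (3 * (t : ℝ) ^ 2 * k) =
                12 * (t : ℝ) ^ 4 * k by ring]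
      have h2 : (c : ℝ) ^ (t + 1) ≤ (c : ℝ) ^ (2 * r) := pow_le_pow_right₀ hc1R (by omega)
      have h3 : (c : ℝ) ≤ (D : ℝ) ^ 2 * (12 * (t : ℝ) ^ 4 * k) ^ t := by
        have h4 : (c : ℝ) ^ t * c ≤ (c : ℝ) ^ t * ((D : ℝ) ^ 2 * (12 * (t : ℝ) ^ 4 * k) ^ t) := by
          rw [← pow_succ]; exact h2.trans h1
        exact le_of_mul_le_mul_left h4 (by positivity)
      have h5 : (D : ℝ) ^ 2 ≤ exp (2 * ρ) := by
        calc (D : ℝ) ^ 2 ≤ (exp ρ) ^ 2 := pow_le_pow_left₀ (Nat.cast_nonneg _) hD 2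
          _ = exp (2 * ρ) := by rw [← Real.exp_nat_mul]; norm_num
      exact lt_irrefl _ (hfin c (h3.trans (mul_le_mul_of_nonneg_right h5 (by positivity))))
  · -- r < s
    have h1 : (c : ℝ) ^ (2 * s) ≤ (c : ℝ) ^ t * (12 * (t : ℝ) ^ 4 * k) ^ t := by
      have h2 : (c : ℝ) ^ s ≤ (t : ℝ) ^ s * Δ ^ t := by
        refine le_trans (pow_le_pow_left₀ hcR.le ?_ s) hsc
        nlinarith
      calc (c : ℝ) ^ (2 * s) = ((c : ℝ) ^ s) ^ 2 := by rw [← pow_mul, mul_comm]
        _ ≤ ((t : ℝ) ^ s * Δ ^ t) ^ 2 := pow_le_pow_left₀ (by positivity) h2 2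
        _ = ((t : ℝ) ^ 2) ^ s * (Δ ^ 2) ^ t := by ring
        _ ≤ ((t : ℝ) ^ 2) ^ t * (c * (3 * (t : ℝ) ^ 2 * k)) ^ t := by
            refine mul_le_mul ?_ (pow_le_pow_left₀ (by positivity) hsq' t) (by positivity)
              (by positivity)
            exact pow_le_pow_right₀ (one_le_pow₀ htR) (by omega)
        _ = (c : ℝ) ^ t * (((t : ℝ) ^ 2) ^ t * (3 * (t : ℝ) ^ 2 * k) ^ t) := by
            rw [mul_pow (c : ℝ)]
            generalize ((t : ℝ) ^ 2) ^ t = y1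
            generalize (3 * (t : ℝ) ^ 2 * k) ^ t = y2
            ring
        _ = (c : ℝ) ^ t * (3 * (t : ℝ) ^ 4 * k) ^ t := by
            rw [← mul_pow ((t : ℝ) ^ 2), show (t : ℝ) ^ 2 * (3 * (t : ℝ) ^ 2 * k) =
              3 * (t : ℝ) ^ 4 * k by ring]
        _ ≤ _ := by
            refine mul_le_mul_of_nonneg_left ?_ (by positivity)
            refine pow_le_pow_left₀ (by positivity) ?_ t
            refine mul_le_mul_of_nonneg_right ?_ (by linarith)
            have h9 : (0 : ℝ) < (t : ℝ) ^ 4 := by positivity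
            linarith
    have h2 : (c : ℝ) ^ (t + 1) ≤ (c : ℝ) ^ (2 * s) := pow_le_pow_right₀ hc1R (by omega)
    have h3 : (c : ℝ) ≤ (12 * (t : ℝ) ^ 4 * k) ^ t := by
      have h4 : (c : ℝ) ^ t * c ≤ (c : ℝ) ^ t * (12 * (t : ℝ) ^ 4 * k) ^ t := by
        rw [← pow_succ]; exact h2.trans h1
      exact le_of_mul_le_mul_left h4 (by positivity)
    have h5 : (12 * (t : ℝ) ^ 4 * k) ^ t ≤ exp (2 * ρ) * (12 * (t : ℝ) ^ 4 * k) ^ t := by
      have h8 : 0 < (12 * (t : ℝ) ^ 4 * k) ^ t := by positivity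
      exact le_mul_of_one_le_left h8.le hexp1
    exact lt_irrefl _ (hfin c (h3.trans h5))

end

end XYZ4
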