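import Mathlib
import Pool.Agent.W_4d3d39_h4.C
import Pool.Agent.W_4d3d39_h4.D3
import Pool.Agent.W_4d3d39_h43.RadC

/-! The core statement. -/

set_option autoImplicit false

namespace XYZ4

open Real

theorem large_c (M : ℝ) (hM : 0 < M) (N : ℕ) : ∃ c1 : ℕ, ∀ c : ℕ, c1 ≤ c →
    M < log c ∧ M * (log c) ^ N < c := by
  have h1 := (Real.isLittleO_pow_log_id_atTop (n := N)).def (show (0 : ℝ) < 1 / (2 * M) by positivity)
  obtain ⟨x0, hx0⟩ := Filter.eventually_atTop.1 h1
  refine ⟨⌈x0⌉₊ + ⌈exp M⌉₊ + 2, fun c hc => ?_⟩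
  have hcx : x0 ≤ c := (Nat.le_ceil x0).trans (by exact_mod_cast (by omega : ⌈x0⌉₊ ≤ c))
  have h2 := hx0 c hcx
  have hc1 : (1 : ℝ) < c := by exact_mod_cast (by omega : 1 < c)
  have hcM : exp M < c := by
    refine lt_of_le_of_lt (Nat.le_ceil _) ?_
    exact_mod_cast (by omega : ⌈exp M⌉₊ < c)
  have hlc : 0 < log c := Real.log_pos hc1
  rw [Real.norm_of_nonneg (by positivity), id, Real.norm_of_nonneg (by positivity)] at h2
  refine ⟨(Real.lt_log_iff_exp_lt (by linarith)).2 hcM, ?_⟩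
  have h3 : M * (log c) ^ N ≤ M * (1 / (2 * M) * c) := mul_le_mul_of_nonneg_left h2 hM.le
  have h4 : M * (1 / (2 * M) * c) = c / 2 := by field_simp
  linarith

theorem core : Core := by
  intro B ρ hρ
  set M : ℝ := 1 + ρ + 8 * exp (1 + ρ) * ρ + 48 * exp (1 + ρ) + 6 + 16 * (B : ℝ) ^ B * exp ρ * ρ +
    96 * (B : ℝ) ^ B * exp ρ * B + exp (2 * ρ) * (72 * (B : ℝ) ^ 4) ^ B with hM
  have hB0 : (0 : ℝ) ≤ B := Nat.cast_nonneg B
  have t1 : 0 ≤ 8 * exp (1 + ρ) * ρ := by positivity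
  have t2 : 0 ≤ 48 * exp (1 + ρ) := by positivity
  have t3 : 0 ≤ 16 * (B : ℝ) ^ B * exp ρ * ρ := by positivity
  have t4 : 0 ≤ 96 * (B : ℝ) ^ B * exp ρ * B := by positivity
  have t5 : 0 ≤ exp (2 * ρ) * (72 * (B : ℝ) ^ 4) ^ B := by positivity
  have hMpos : 0 < M := by linarith
  obtain ⟨c1, hc1⟩ := large_c M hMpos (B + 2)
  obtain ⟨c0, hc0⟩ := exists_c0
  refine ⟨max c0 c1, ?_⟩
  intro a b c k g h hc β γ E hγ hβ hE hEl
  have ha := h.ha
  have hb := h.hb
  have hac := h.hac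
  have hbc := h.hbc
  have hk1 := h.hk
  obtain ⟨hx, hxN⟩ := hc1 c ((le_max_right _ _).trans hc)
  have hk := h.k_lt (hc0 c ((le_max_left _ _).trans hc))
  set x := log c with hxdef
  have hcR : (0 : ℝ) < c := by exact_mod_cast (by omega : 0 < c)
  have hx1 : 1 ≤ x := by linarith
  have hx0 : 0 < x := by linarith
  have key : ∀ (T : ℝ) (j : ℕ), T ≤ M → j ≤ B + 2 → T * x ^ j < c := by
    intro T j hT hj
    refine lt_of_le_of_lt ?_ hxN
    have h1 : x ^ j ≤ x ^ (B + 2) := pow_le_pow_right₀ hx1 hj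
    calc T * x ^ j ≤ M * x ^ j := mul_le_mul_of_nonneg_right hT (by positivity)
      _ ≤ M * x ^ (B + 2) := mul_le_mul_of_nonneg_left h1 hMpos.le
  have hkx : (k : ℝ) ≤ 6 * x := by
    have h6 : (k : ℝ) ≤ 4 * (Nat.log 2 c : ℝ) := by exact_mod_cast hk.le
    have h7 : (Nat.log 2 c : ℝ) ≤ log c / log 2 := by
      have := Real.natLog_le_logb c 2
      rwa [Real.logb] at this
    have hl2 : 0.6931471803 < log 2 := Real.log_two_gt_d9
    have h8 : log c / log 2 ≤ (3 / 2) * x := by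
      rw [div_le_iff₀ (by linarith)]
      nlinarith
    linarith
  have hk0 : (0 : ℝ) ≤ k := Nat.cast_nonneg k
  have hcx : ρ * c < c * x := by nlinarith
  -- `β ≠ 0`
  rcases Nat.eq_zero_or_pos β with h0 | hβ0
  · exfalso
    rw [h0, mul_zero, zero_add] at hE
    have h1 : c ≤ E := by rw [hE]; exact Nat.le_mul_of_pos_right c (by omega)
    have h2 : (c : ℝ) ≤ E := by exact_mod_cast h1
    have h3 : (c : ℝ) * x ≤ E * x := mul_le_mul_of_nonneg_right h2 hx0.le
    linarith
  obtain ⟨d, t, r, hd, hcop, hβt, hγr⟩ : ∃ d t r : ℕ, 0 < d ∧ Nat.Coprime t r ∧ β = t * d ∧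
      γ = r * d := by
    obtain ⟨d, t, r, h1, h2, h3, h4⟩ := Nat.exists_coprime' (m := β) (n := γ)
      (Nat.gcd_pos_of_pos_left _ hβ0)
    exact ⟨d, t, r, h1, h2, h3, h4⟩
  have ht0 : 0 < t := by
    rcases Nat.eq_zero_or_pos t with h5 | h5
    · rw [h5, zero_mul] at hβt; omega
    · exact h5
  have hr0 : 0 < r := by
    rcases Nat.eq_zero_or_pos r with h5 | h5
    · rw [h5, zero_mul] at hγr; omega
    · exact h5
  have htB : t ≤ B := by
    have : t ≤ t * d := Nat.le_mul_of_pos_right t hd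
    omega
  obtain ⟨e0, he0⟩ : ∃ e0, b * t + e0 = c * r := by
    have h1 : b * t ≤ c * r := by
      have h2 : b * t * d ≤ c * r * d := by
        have h3 : b * t * d = b * β := by rw [hβt]; ring
        have h4 : c * r * d = c * γ := by rw [hγr]; ring
        rw [h3, h4]; omega
      exact Nat.le_of_mul_le_mul_right h2 hd
    exact ⟨c * r - b * t, by omega⟩
  have hEe : E = e0 * d := by
    have h1 : b * β + E = b * β + e0 * d := by
      rw [hE, hβt, hγr]
      calc c * (r * d) = (c * r) * d := by ring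
        _ = (b * t + e0) * d := by rw [he0]
        _ = _ := by ring
    omega
  have he : (e0 : ℝ) * x ≤ ρ * c := by
    refine le_trans ?_ hEl
    refine mul_le_mul_of_nonneg_right ?_ hx0.le
    rw [hEe]
    exact_mod_cast Nat.le_mul_of_pos_right e0 hd
  rcases lt_trichotomy r t with hrt | hrt | hrt
  · -- main case
    obtain ⟨s, hs⟩ : ∃ s, t = s + r := ⟨t - r, by omega⟩
    have hs1 : 1 ≤ s := by omega
    have hsmall : 4 * (B : ℝ) ^ B * exp ρ * ((e0 : ℝ) + B * k) < c := by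
      have h1 : 16 * (B : ℝ) ^ B * exp ρ * e0 ≤ c := by
        rcases hρ.eq_or_lt with h0 | h0
        · have h2 : (e0 : ℝ) * x ≤ 0 := by rw [← h0] at he; simpa using he
          have h3 : (e0 : ℝ) ≤ 0 := by
            by_contra hcon
            have : 0 < (e0 : ℝ) * x := mul_pos (not_le.1 hcon) hx0
            linarith
          have h4 : (e0 : ℝ) = 0 := le_antisymm h3 (Nat.cast_nonneg _)
          rw [h4, mul_zero]; exact hcR.le
        · have h2 : 16 * (B : ℝ) ^ B * exp ρ * ρ ≤ x := by linarith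
          have h3 : (e0 : ℝ) * (16 * (B : ℝ) ^ B * exp ρ * ρ) ≤ ρ * c :=
            (mul_le_mul_of_nonneg_left h2 (Nat.cast_nonneg _)).trans he
          have h4 : ρ * (16 * (B : ℝ) ^ B * exp ρ * e0) ≤ ρ * c := by linarith
          exact le_of_mul_le_mul_left h4 h0
      have h5 : 16 * (B : ℝ) ^ B * exp ρ * (B * k) < c := by
        have h6 := key (96 * (B : ℝ) ^ B * exp ρ * B) 1 (by linarith) (by omega)
        refine lt_of_le_of_lt ?_ h6
        rw [pow_one]
        have h7 : 16 * (B : ℝ) ^ B * exp ρ * (B * k) = (16 * (B : ℝ) ^ B * exp ρ * B) * k := by ring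
        have h8 : 96 * (B : ℝ) ^ B * exp ρ * B * x = (16 * (B : ℝ) ^ B * exp ρ * B) * (6 * x) := by
          ring
        rw [h7, h8]
        exact mul_le_mul_of_nonneg_left hkx (by positivity)
      have h9 : 4 * (B : ℝ) ^ B * exp ρ * ((e0 : ℝ) + B * k) =
        (16 * (B : ℝ) ^ B * exp ρ * e0 + 16 * (B : ℝ) ^ B * exp ρ * (B * k)) / 4 := by ring
      rw [h9]
      linarith
    obtain ⟨hrel, D, hD0, hD, hDb⟩ := h.core2 hρ hs1 hr0 hs htB he0 he hsmall
    by_cases hsr : s = r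
    · have h1 : r ∣ t := ⟨2, by omega⟩
      have h2 : r = 1 := by
        have h3 : r ∣ Nat.gcd t r := Nat.dvd_gcd h1 dvd_rfl
        rw [hcop] at h3
        exact Nat.dvd_one.1 h3
      have h3 : s = 1 := by omega
      have h4 : t = 2 := by omega
      rw [h2, h3, h4] at hrel
      simp at hrel
      omega
    · exfalso
      have hsmall' : 4 * ((e0 : ℝ) + B * k) < c := by
        refine lt_of_le_of_lt ?_ hsmall
        have hB1 : (1 : ℝ) ≤ B := by exact_mod_cast (by omega : 1 ≤ B)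
        have h1 : (1 : ℝ) ≤ (B : ℝ) ^ B := one_le_pow₀ hB1
        have h2 : (1 : ℝ) ≤ exp ρ := Real.one_le_exp hρ
        have h3 : (1 : ℝ) ≤ (B : ℝ) ^ B * exp ρ := by
          calc (1 : ℝ) = 1 * 1 := by ring
            _ ≤ _ := mul_le_mul h1 h2 (by norm_num) (by positivity)
        have h4 : 0 ≤ (e0 : ℝ) + B * k := by positivity
        have h5 : (1 : ℝ) * ((e0 : ℝ) + B * k) ≤ ((B : ℝ) ^ B * exp ρ) * ((e0 : ℝ) + B * k) :=
          mul_le_mul_of_nonneg_right h3 h4
        linarith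
      refine h.core3 hρ hs1 hr0 hs htB hsr he0 hsmall' hrel hD0 hD hDb ?_
      have h1 := key (exp (2 * ρ) * (72 * (B : ℝ) ^ 4) ^ B) B (by linarith) (by omega)
      refine lt_of_le_of_lt ?_ h1
      rw [mul_assoc (exp (2 * ρ)) ((72 * (B : ℝ) ^ 4) ^ B), ← mul_pow]
      refine mul_le_mul_of_nonneg_left ?_ (exp_pos _).le
      refine pow_le_pow_left₀ (by positivity) ?_ B
      have h2 : 72 * (B : ℝ) ^ 4 * x = 12 * (B : ℝ) ^ 4 * (6 * x) := by ring
      rw [h2]
      exact mul_le_mul_of_nonneg_left hkx (by positivity)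
  · -- ratio 1
    exfalso
    have h1 : r = 1 := by
      have h3 : r ∣ Nat.gcd t r := Nat.dvd_gcd (by rw [hrt]) dvd_rfl
      rw [hcop] at h3
      exact Nat.dvd_one.1 h3
    have h2 : t = 1 := by omega
    rw [h1, h2, mul_one, mul_one] at he0
    refine h.core1 hρ he0 he (by linarith) ?_ ?_
    · have h6 := key (48 * exp (1 + ρ)) 1 (by linarith) (by omega)
      rw [pow_one] at h6
      refine le_trans ?_ h6.le
      have h7 : 48 * exp (1 + ρ) * x = 8 * exp (1 + ρ) * (6 * x) := by ring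
      rw [h7]
      exact mul_le_mul_of_nonneg_left hkx (by positivity)
    · have h6 := key 6 2 (by linarith) (by omega)
      refine le_trans ?_ h6.le
      have h7 : (6 : ℝ) * x ^ 2 = (6 * x) * x := by ring
      rw [h7]
      exact mul_le_mul_of_nonneg_right hkx hx0.le
  · -- ratio larger than 1
    exfalso
    have h1 : c ≤ e0 := by
      have h2 : c * (t + 1) ≤ c * r := Nat.mul_le_mul_left _ (by omega)
      have h3 : b * t ≤ c * t := Nat.mul_le_mul_right _ hbc.le
      have h4 : c * (t + 1) = c * t + c := by ring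
      omega
    have h2 : (c : ℝ) ≤ e0 := by exact_mod_cast h1
    have h3 : (c : ℝ) * x ≤ e0 * x := mul_le_mul_of_nonneg_right h2 hx0.le
    linarith

end XYZ4
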