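import Mathlib
import Pool.Agent.W_4d3d39_h4.D

/-! The case `4ab = c^2` gives Ko's family (Uchiyama). -/

set_option autoImplicit false

namespace XYZ4

theorem sq_of_cop {a b e : ℕ} (hcop : Nat.Coprime a b) (h : a * b = e ^ 2) : ∃ m, a = m ^ 2 :=
  exists_eq_pow_of_mul_eq_pow (Nat.isUnit_iff.2 hcop) h

theorem Prim.ko_of_lt {a b c k g : ℕ} (h : Prim a b c k g) (hba : b < a)
    (h4 : 4 * (a * b) = c ^ 2) : ∃ n, 2 ≤ n ∧
      a * g = 2 ^ (2 ^ (n + 1) * (2 ^ n - n - 1) + 2 * n) * (2 ^ n - 1) ^ (2 * (2 ^ n - 1)) ∧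
      b * g = 2 ^ (2 ^ (n + 1) * (2 ^ n - n - 1)) * (2 ^ n - 1) ^ (2 * (2 ^ n - 1) + 2) ∧
      c * g = 2 ^ (2 ^ (n + 1) * (2 ^ n - n - 1) + n + 1) *
        (2 ^ n - 1) ^ (2 * (2 ^ n - 1) + 1) := by
  have ha := h.ha
  have hb := h.hb
  have hg := h.hg
  have hk := h.hk
  have hsum := h.hsum
  -- squares
  obtain ⟨e, he⟩ : 2 ∣ c := by
    have h1 : 2 ∣ c ^ 2 := by rw [← h4]; exact ⟨2 * (a * b), by ring⟩
    exact Nat.prime_two.dvd_of_dvd_pow h1
  have hab : a * b = e ^ 2 := by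
    have h1 : 4 * (a * b) = 4 * e ^ 2 := by rw [h4, he]; ring
    omega
  obtain ⟨m, hm⟩ := sq_of_cop h.hcop hab
  obtain ⟨n, hn⟩ := sq_of_cop h.hcop.symm (by rw [mul_comm]; exact hab)
  have hemn : e = m * n := by
    have h1 : (m * n) ^ 2 = e ^ 2 := by rw [← hab, hm, hn]; ring
    exact (Nat.pow_left_injective (by norm_num : (2 : ℕ) ≠ 0) h1).symm
  have hc : c = 2 * (m * n) := by rw [he, hemn]
  have hn2 : 2 ≤ n := by
    by_contra hcon
    have h1 : n ≤ 1 := by omega
    have h2 : n ^ 2 ≤ 1 := by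
      calc n ^ 2 ≤ 1 ^ 2 := Nat.pow_le_pow_left h1 2
        _ = 1 := by norm_num
    omega
  have hnm : n < m := by
    by_contra hcon
    have h1 : m ^ 2 ≤ n ^ 2 := Nat.pow_le_pow_left (not_lt.1 hcon) 2
    omega
  obtain ⟨j, hj⟩ : ∃ j, m = n + j := ⟨m - n, by omega⟩
  have hj1 : 1 ≤ j := by omega
  have hkj : k = j ^ 2 := by
    have h1 : m ^ 2 + n ^ 2 = 2 * (m * n) + k := by rw [← hm, ← hn, ← hc]; exact hsum
    have h2 : m ^ 2 + n ^ 2 = 2 * (m * n) + j ^ 2 := by rw [hj]; ring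
    omega
  have hcopmn : Nat.Coprime m n := by
    have h1 := h.hcop
    rw [hm, hn] at h1
    exact Nat.Coprime.coprime_dvd_left (dvd_pow_self m (by norm_num))
      (Nat.Coprime.coprime_dvd_right (dvd_pow_self n (by norm_num)) h1)
  have hm0 : m ≠ 0 := by omega
  have hn0 : n ≠ 0 := by omega
  -- valuation of `c`
  have hfc : ∀ p, c.factorization p = (2 : ℕ).factorization p + m.factorization p +
      n.factorization p := by
    intro p
    rw [hc, Nat.factorization_mul (by norm_num) (by positivity), Nat.factorization_mul hm0 hn0]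
    simp [add_assoc]
  have hfa : ∀ p, a.factorization p = 2 * m.factorization p := by
    intro p; rw [hm, Nat.factorization_pow]; simp
  have hfb : ∀ p, b.factorization p = 2 * n.factorization p := by
    intro p; rw [hn, Nat.factorization_pow]; simp
  have hf2 : ∀ p, p.Prime → p ≠ 2 → (2 : ℕ).factorization p = 0 := by
    intro p hp hp2
    rw [Nat.Prime.factorization Nat.prime_two]
    simp [Ne.symm hp2]
  -- `m` is a power of two
  have hm2 : ∀ {p : ℕ}, p.Prime → p ∣ m → p = 2 := by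
    intro p hp hpm
    by_contra hp2
    have h1 := h.val p
    have hnp : n.factorization p = 0 := by
      apply Nat.factorization_eq_zero_of_not_dvd
      intro hpn
      exact hp.one_lt.ne' (Nat.dvd_one.1 (hcopmn ▸ Nat.dvd_gcd hpm hpn))
    rw [hfc, hfa, hfb, hf2 p hp hp2, hnp, hm, hc] at h1
    have h2 : 0 < m.factorization p := hp.factorization_pos_of_dvd hm0 hpm
    set v := m.factorization p
    have h3 : 2 * (m * m * v) ≤ 2 * (m * n * v) := by
      have h4 : m ^ 2 * (2 * v) = 2 * (m * m * v) := by ring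
      have h5 : 2 * (m * n) * (0 + v + 0) = 2 * (m * n * v) := by ring
      rw [h4, h5] at h1
      omega
    have h4 : m * n * v < m * m * v := by
      apply Nat.mul_lt_mul_of_pos_right _ h2
      exact Nat.mul_lt_mul_of_pos_left hnm (by omega)
    omega
  have hmpow := Nat.eq_prime_pow_of_unique_prime_dvd hm0 hm2
  set i := m.primeFactorsList.length with hi
  have hi2 : 2 ≤ i := by
    by_contra hcon
    have h1 : i ≤ 1 := by omega
    have h2 : 2 ^ i ≤ 2 ^ 1 := Nat.pow_le_pow_right (by norm_num) h1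
    omega
  have hnodd : n.factorization 2 = 0 := by
    apply Nat.factorization_eq_zero_of_not_dvd
    intro h1
    have h2 : 2 ∣ m := by rw [hmpow]; exact dvd_pow_self 2 (by omega)
    have h3 : 2 ∣ Nat.gcd m n := Nat.dvd_gcd h2 h1
    rw [hcopmn] at h3
    omega
  have hmfac : m.factorization 2 = i := by
    rw [hmpow, Nat.Prime.factorization_pow Nat.prime_two]
    simp
  have hjodd : Nat.Coprime j 2 := by
    rw [Nat.coprime_comm, Nat.Prime.coprime_iff_not_dvd Nat.prime_two]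
    intro h1
    have h2 : 2 ∣ m := by rw [hmpow]; exact dvd_pow_self 2 (by omega)
    rw [hj] at h2
    have h3 : 2 ∣ n := (Nat.dvd_add_left h1).1 h2
    have h4 : 0 < n.factorization 2 := Nat.prime_two.factorization_pos_of_dvd hn0 h3
    omega
  have hval2 : j ^ 2 * g.factorization 2 + 2 ^ (i + 1) * (i * j) = 2 ^ (i + 1) * n := by
    have h1 := h.val 2
    have h22 : (2 : ℕ).factorization 2 = 1 := by
      rw [Nat.Prime.factorization Nat.prime_two]; simp
    rw [hfc, hfa, hfb, hnodd, hmfac, h22, hm, hc, hkj] at h1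
    have h2 : 2 * (m * n) * (1 + i + 0) = 2 * m * n + 2 * m * i * n := by ring
    have h3 : m ^ 2 * (2 * i) = 2 * m * i * n + 2 * m * (i * j) := by
      have : m ^ 2 * (2 * i) = 2 * m * i * m := by ring
      rw [this]
      conv_lhs => rw [hj]
      conv_rhs => rw [hj]
      ring
    have h4 : 2 ^ (i + 1) = 2 * m := by rw [hmpow]; ring
    rw [h4]
    rw [h2, h3] at h1
    omega
  have hjn : j ∣ n := by
    have h1 : j ∣ 2 ^ (i + 1) * n := by
      rw [← hval2]
      refine dvd_add ?_ ?_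
      · exact Dvd.dvd.mul_right (dvd_pow_self j (by norm_num)) _
      · exact Dvd.dvd.mul_left (Dvd.intro_left i rfl) _
    exact (Nat.Coprime.pow_right (i + 1) hjodd).dvd_of_dvd_mul_left h1
  have hj1' : j = 1 := by
    have h1 : j ∣ m := by rw [hj]; exact dvd_add hjn dvd_rfl
    have h2 : j ∣ Nat.gcd m n := Nat.dvd_gcd h1 hjn
    rw [hcopmn] at h2
    exact Nat.dvd_one.1 h2
  have hmi : 2 ^ i = n + 1 := by rw [hi, ← hmpow, hj, hj1']
  have hni : n = 2 ^ i - 1 := by omega
  have hil : i + 1 ≤ 2 ^ i := Nat.lt_two_pow_self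
  -- the value of `g`
  have hgval : g = 2 ^ (2 ^ (i + 1) * (2 ^ i - i - 1)) * n ^ (2 * n) := by
    refine Nat.eq_of_factorization_eq (by omega) (by positivity) ?_
    intro p
    rw [Nat.factorization_mul (by positivity) (by positivity), Nat.factorization_pow,
      Nat.factorization_pow]
    simp only [Finsupp.coe_add, Finsupp.coe_smul, Pi.add_apply, Pi.smul_apply, smul_eq_mul]
    by_cases hp : p.Prime
    · by_cases hp2 : p = 2
      · subst hp2
        rw [hnodd, Nat.Prime.factorization Nat.prime_two]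
        simp only [Finsupp.single_eq_same]
        rw [hj1'] at hval2
        have h1 : 2 ^ i - i - 1 + i = n := by omega
        have h2 : 2 ^ (i + 1) * (2 ^ i - i - 1 + i) = 2 ^ (i + 1) * (2 ^ i - i - 1) +
          2 ^ (i + 1) * i := by ring
        rw [h1] at h2
        rw [h2] at hval2
        simp only [one_pow, one_mul, mul_one, mul_zero, add_zero] at hval2 ⊢
        omega
      · rw [hf2 p hp hp2, mul_zero, zero_add]
        have h1 := h.val p
        have hmp : m.factorization p = 0 := by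
          apply Nat.factorization_eq_zero_of_not_dvd
          intro hpm
          exact hp2 (hm2 hp hpm)
        rw [hfc, hfa, hfb, hf2 p hp hp2, hmp, hn, hc, hkj, hj1', hj, hj1'] at h1
        set v := n.factorization p
        have h2 : 1 ^ 2 * g.factorization p + a * (2 * 0) + n ^ 2 * (2 * v) =
          g.factorization p + 2 * n ^ 2 * v := by ring
        have h3 : 2 * ((n + 1) * n) * (0 + 0 + v) = 2 * n * v + 2 * n ^ 2 * v := by ring
        rw [h2, h3] at h1
        omega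
    · simp [Nat.factorization_eq_zero_of_not_prime _ hp]
  refine ⟨i, hi2, ?_, ?_, ?_⟩
  · rw [← hni]
    conv_lhs => rw [hm, hgval, hj, hj1', ← hmi]
    rw [pow_add, ← pow_mul, mul_comm i 2]
    ring
  · rw [← hni]
    conv_lhs => rw [hn, hgval]
    rw [pow_add n]
    ring
  · rw [← hni]
    conv_lhs => rw [hc, hgval, hj, hj1', ← hmi]
    rw [pow_add 2, pow_add 2, pow_add n]
    ring

/-- Uchiyama: the case `4ab = c^2` gives Ko's family. -/
theorem Prim.ko {a b c k g : ℕ} (h : Prim a b c k g) (h4 : 4 * (a * b) = c ^ 2) :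
    ∃ n, 2 ≤ n ∧
      ((a * g = 2 ^ (2 ^ (n + 1) * (2 ^ n - n - 1) + 2 * n) * (2 ^ n - 1) ^ (2 * (2 ^ n - 1)) ∧
        b * g = 2 ^ (2 ^ (n + 1) * (2 ^ n - n - 1)) * (2 ^ n - 1) ^ (2 * (2 ^ n - 1) + 2)) ∨
       (b * g = 2 ^ (2 ^ (n + 1) * (2 ^ n - n - 1) + 2 * n) * (2 ^ n - 1) ^ (2 * (2 ^ n - 1)) ∧
        a * g = 2 ^ (2 ^ (n + 1) * (2 ^ n - n - 1)) * (2 ^ n - 1) ^ (2 * (2 ^ n - 1) + 2))) ∧
      c * g = 2 ^ (2 ^ (n + 1) * (2 ^ n - n - 1) + n + 1) *
        (2 ^ n - 1) ^ (2 * (2 ^ n - 1) + 1) := by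
  rcases lt_trichotomy b a with hlt | heq | hlt
  · obtain ⟨n, h1, h2, h3, h5⟩ := h.ko_of_lt hlt h4
    exact ⟨n, h1, Or.inl ⟨h2, h3⟩, h5⟩
  · exfalso
    have h1 := h.hcop
    have h2 := h.ha
    rw [heq, Nat.coprime_self] at h1
    omega
  · obtain ⟨n, h1, h2, h3, h5⟩ := h.symm.ko_of_lt hlt (by rw [mul_comm b a]; exact h4)
    exact ⟨n, h1, Or.inr ⟨h2, h3⟩, h5⟩

end XYZ4
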